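import Pool.Agent.J4H30.SW.LK

/-!
Project SW, part 2: the abstract covering sieve for weighted sets.
-/

set_option autoImplicit false
set_option linter.unusedSectionVars false

namespace Pool.Agent.J4H30.SW

open Finset Pool.Agent.H256R2.SC

variable {n : ℕ} {κ : Type} [Fintype κ] [DecidableEq κ]

theorem core_wt (w : ℕ → ℝ) (M : ℕ) (A : ℝ) (col : ℕ → Col n κ)
    {p g : Fin n → ℝ} {h : Finset (Fin n) → ℝ} {z K : ℝ} (H : Hyp p g h z K)
    (Q δ t : ℝ) (J M₀ : ℕ) (err : Finset (Fin n) → ℝ) (hw : ∀ m, 0 ≤ w m)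
    (hJ : Even J) (ht : 0 < t) (hA : 0 < A) (hκ : 1 ≤ Fintype.card κ)
    (hQz : 1 ≤ Q)
    (hpz : ∀ i, p i ≤ z) (hg1 : ∀ i, g i ≤ 1) (htg : ∀ i, 3 * t * g i ≤ 1)
    (hug : ∀ i, (Fintype.card κ : ℝ) * g i ≤ 1)
    (hδ : ∀ D : Col n κ, qq p D ≤ Q → 2 * ∑ i with D i ≠ none, g i ≤ δ)
    (hug4 : (Fintype.card κ : ℝ) * δ ≤ 1 / 4)
    (hM : ∀ D : Col n κ, qq p D ≤ Q → (supp D).card ≤ M₀)
    (htail : (Fintype.card κ + 1 : ℝ) * (δ ^ 2 + Real.exp (2 * (Fintype.card κ : ℝ) * K / Real.log z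
      - Real.log (Q / z) / Real.log z)) ≤ 1 / 8)
    (hmom : (Fintype.card κ : ℝ) * (1 / t) ^ J * Real.exp ((2 + 6 * t) * ∑ i, g i) ≤ 1 / 8)
    (hcnt : ∀ D : Col n κ, qq p D ≤ Q ^ 2 * z ^ J →
      |∑ m ∈ range M, w m * ind D (col m) - A * nu g D| ≤ err (supp D))
    (hfin : ((Fintype.card κ : ℝ) ^ M₀ * Real.exp (∑ i, g i)) ^ 2 * (1 + Fintype.card κ) *
      (∑ T : Finset (Fin n) with ∏ i ∈ T, p i ≤ Q ^ 2 * z ^ J, 32 ^ T.card * |err T|) < A / 2) :
    ∃ m < M, w m ≠ 0 ∧ ∀ k, ∃ i, col m i = some k := by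
  set u : ℝ := (Fintype.card κ : ℝ) with hu
  have hu0 : 0 ≤ u := Nat.cast_nonneg _
  have hQ0 : 0 < Q := by linarith
  have hz0 : 0 < z := by linarith [H.z1]
  set E : ℝ := Real.exp (2 * u * K / Real.log z - Real.log (Q / z) / Real.log z) with hE
  set Z : ℝ := Zs κ g h with hZ
  have hZ1 : 1 ≤ Z := Zs_ge_one H
  have hE0 : 0 < E := Real.exp_pos _
  have hp1 : ∀ i, 1 ≤ p i := fun i => (H.p1 i).le
  have hT : ∑ D : Col n κ with Q / z < qq p D, (yy h D) ^ 2 * nu g D ≤ E * Z :=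
    tail_bound H (Q / z) (by positivity)
  have hE8 : E ≤ 1 / 8 := by
    have : δ ^ 2 + E ≤ (u + 1) * (δ ^ 2 + E) := by nlinarith [sq_nonneg δ]
    nlinarith [sq_nonneg δ]
  have hT8 : E * Z ≤ 1 / 8 * Z := by nlinarith
  set V : Col n κ → ℝ := VV g (yT p h Q) with hV
  have hlow : 3 / 4 * Z ≤ EE g (fun x => (V x) ^ 2) :=
    second_lower H Q δ (E * Z) hug hδ hug4 hQ0 hT hT8
  have hup : ∀ k, EE g (fun x => (V x) ^ 2 * SS J k x) ≤
      δ ^ 2 * Z + E * Z + (1 / t) ^ J * (Real.exp ((2 + 6 * t) * ∑ i, g i) * Z) := fun k =>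
    second_upper H Q δ t (E * Z) J hJ ht htg hug hQ0 hδ hT k
  set F : Col n κ → ℝ := fun x => V x ^ 2 * (1 - ∑ k, SS J k x) with hF
  have hEF : Z / 2 ≤ EE g F := by
    have e1 : EE g F = EE g (fun x => (V x) ^ 2) - ∑ k, EE g (fun x => (V x) ^ 2 * SS J k x) := by
      rw [← EE_sum, ← EE_sub]
      congr 1
      funext x
      rw [hF]
      simp only
      rw [← Finset.mul_sum]
      ring
    rw [e1]
    have e2 : ∑ k : κ, EE g (fun x => (V x) ^ 2 * SS J k x) ≤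
        u * (δ ^ 2 * Z + E * Z + (1 / t) ^ J * (Real.exp ((2 + 6 * t) * ∑ i, g i) * Z)) := by
      refine (Finset.sum_le_sum (fun k _ => hup k)).trans ?_
      rw [Finset.sum_const, Finset.card_univ, nsmul_eq_mul]
    have e3 : u * (δ ^ 2 * Z + E * Z) ≤ 1 / 8 * Z := by
      have : u * (δ ^ 2 + E) ≤ 1 / 8 := by nlinarith [sq_nonneg δ]
      nlinarith
    have e4 : u * ((1 / t) ^ J * (Real.exp ((2 + 6 * t) * ∑ i, g i) * Z)) ≤ 1 / 8 * Z := by
      nlinarith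
    nlinarith
  -- level of `F`
  have hzJ : (1:ℝ) ≤ z ^ J := one_le_pow₀ H.z1.le
  set cV : ℝ := u ^ M₀ * Real.exp (∑ i, g i) with hcV
  have hcV0 : 0 ≤ cV := by positivity
  have hyT : ∀ D : Col n κ, yT p h Q D ≠ 0 → qq p D ≤ Q := by
    intro D hD
    by_contra hc
    exact hD (by unfold yT; rw [if_neg hc])
  have hVL : LK p Q 4 cV V := by
    refine LK_VV p g hp1 (fun i => (H.g0 i).le) hg1 (yT p h Q) ?_ Q hyT M₀
      (fun D hD => hM D (hyT D hD)) hκ
    intro D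
    unfold yT
    split_ifs
    · exact yy_abs_le H.h0 H.h1 D
    · simp
  have hSL : LK p (z ^ J) 2 (1 + u) (fun x : Col n κ => 1 - ∑ k, SS J k x) := by
    have e1 : LK p (z ^ J) 2 1 (fun _ : Col n κ => (1:ℝ)) :=
      LK_mono hzJ (by norm_num) (by norm_num) (by norm_num) le_rfl (LK_one p)
    have e2 := LK_sum (p := p) (Q := z ^ J) (K := 2) (univ : Finset κ) (fun _ => (1 : ℝ))
      (fun k => (SS J k : Col n κ → ℝ)) (fun k _ => LK_SS p hp1 z hpz H.z1.le J k)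
    have e3 := LK_sub e1 e2
    refine LK_mono le_rfl (by norm_num) le_rfl (by positivity) ?_ e3
    rw [Finset.sum_const, Finset.card_univ, nsmul_eq_mul, mul_one]
  have hFL : LK p (Q ^ 2 * z ^ J) 32 (cV ^ 2 * (1 + u)) F := by
    have e1 := LK_mul hp1 (LK_mul hp1 hVL hVL) hSL
    have e2 : F = fun x => V x * V x * (1 - ∑ k, SS J k x) := by
      rw [hF]; funext x; ring
    rw [e2]
    refine LK_mono (le_of_eq (by ring)) (by norm_num) (by norm_num) (by positivity)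
      (le_of_eq (by ring)) e1
  have htr := transferK w M A col p g err (Q ^ 2 * z ^ J) 32 (cV ^ 2 * (1 + u)) (by norm_num)
    (by positivity) hcnt F hFL
  have hpos : 0 < ∑ m ∈ range M, w m * F (col m) := by
    have e1 := (abs_le.mp htr).1
    have e2 : A / 2 ≤ A * EE g F := by nlinarith
    linarith
  obtain ⟨a, ha, hFa⟩ : ∃ a ∈ range M, 0 < w a * F (col a) := by
    by_contra hc
    push Not at hc
    exact absurd (Finset.sum_nonpos hc) (not_le.mpr hpos)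
  have hwa : w a ≠ 0 := by
    intro h0
    rw [h0, zero_mul] at hFa
    exact lt_irrefl _ hFa
  have hFa' : 0 < F (col a) := by
    by_contra hc
    push Not at hc
    have := mul_nonpos_of_nonneg_of_nonpos (hw a) hc
    linarith
  refine ⟨a, mem_range.mp ha, hwa, fun k => ?_⟩
  by_contra hk
  push Not at hk
  have hV0 : 0 ≤ V (col a) ^ 2 := sq_nonneg _
  have h1 : 0 < 1 - ∑ k, SS J k (col a) := by
    by_contra hc
    push Not at hc
    have : F (col a) ≤ 0 := mul_nonpos_of_nonneg_of_nonpos hV0 hc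
    linarith
  have hSS0 : ∀ l, 0 ≤ SS J l (col a) := by
    intro l
    refine le_trans ?_ (SS_lower J hJ l (col a))
    split_ifs <;> norm_num
  have h2 : SS J k (col a) ≤ ∑ l, SS J l (col a) :=
    Finset.single_le_sum (fun l _ => hSS0 l) (Finset.mem_univ k)
  have h3 := SS_lower J hJ k (col a)
  rw [if_pos hk] at h3
  linarith

end Pool.Agent.J4H30.SW
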