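import Pool.Agent.J4H30.SW.Core
import Pool.Agent.H256R2.SC.V1
import Pool.Agent.H256R2.SC.V2
import Pool.Agent.H256R2.SC.S
import Pool.Agent.H256R2.SC.L
import Pool.Agent.H410R2.ENIface

/-!
Project SW, part 3: the covering theorem for weighted sets, with control of the number of primes.
-/

set_option autoImplicit false
set_option linter.unusedSectionVars false

namespace Pool.Agent.J4H30.SW

open Finset Filter Pool.Agent.H256R2.SC

open scoped Classical

/-- all largeness conditions -/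
theorem ev_facts2 (CM : ℝ) : ∃ L₀ : ℝ, ∀ L : ℝ, L₀ ≤ L →
    10 ≤ Real.log L ∧ 20 * CM ≤ Real.log L ∧ 1000 ≤ L ∧ Real.log L ≤ L := by
  have h1 : ∀ᶠ L : ℝ in atTop, 10 ≤ Real.log L := Real.tendsto_log_atTop.eventually_ge_atTop 10
  have h2 : ∀ᶠ L : ℝ in atTop, 20 * CM ≤ Real.log L :=
    Real.tendsto_log_atTop.eventually_ge_atTop _
  have h5 : ∀ᶠ L : ℝ in atTop, Real.log L ≤ L := by
    filter_upwards [eventually_ge_atTop (1:ℝ)] with L hL
    linarith [Real.log_le_sub_one_of_pos (show (0:ℝ) < L by linarith)]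
  obtain ⟨L₀, h⟩ := Filter.eventually_atTop.mp
    (((h1.and h2).and (eventually_ge_atTop (1000:ℝ))).and h5)
  exact ⟨L₀, fun L hL => ⟨(h L hL).1.1.1, (h L hL).1.1.2, (h L hL).1.2, (h L hL).2⟩⟩

/-- sum over the sets with many elements -/
lemma many_le {n : ℕ} (g : Fin n → ℝ) (hg : ∀ i, 0 ≤ g i) (r : ℝ) :
    ∑ s : Finset (Fin n) with r < (s.card : ℝ), ∏ i ∈ s, g i ≤
      (2 : ℝ) ^ (-r) * Real.exp (2 * ∑ i, g i) := by
  have h1 : ∑ s : Finset (Fin n) with r < (s.card : ℝ), ∏ i ∈ s, g i ≤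
      ∑ s : Finset (Fin n), (2 : ℝ) ^ (-r) * ∏ i ∈ s, (2 * g i) := by
    rw [Finset.sum_filter]
    refine Finset.sum_le_sum fun s _ => ?_
    have hG : 0 ≤ ∏ i ∈ s, g i := Finset.prod_nonneg fun i _ => hg i
    rw [Finset.prod_mul_distrib, Finset.prod_const]
    split_ifs with hs
    · have h2 : (1 : ℝ) ≤ (2 : ℝ) ^ (-r) * 2 ^ s.card := by
        rw [← Real.rpow_natCast, ← Real.rpow_add (by norm_num)]
        exact Real.one_le_rpow (by norm_num) (by linarith)
      calc ∏ i ∈ s, g i = 1 * ∏ i ∈ s, g i := (one_mul _).symm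
        _ ≤ ((2 : ℝ) ^ (-r) * 2 ^ s.card) * ∏ i ∈ s, g i := mul_le_mul_of_nonneg_right h2 hG
        _ = _ := by ring
    · positivity
  refine h1.trans ?_
  rw [← Finset.mul_sum]
  refine mul_le_mul_of_nonneg_left ?_ (by positivity)
  have h2 : ∑ s : Finset (Fin n), ∏ i ∈ s, (2 * g i) = ∏ i, (1 + 2 * g i) := by
    rw [Finset.prod_one_add, Finset.powerset_univ]
  rw [h2, Finset.mul_sum, Real.exp_sum]
  refine Finset.prod_le_prod (fun i _ => by linarith [hg i]) fun i _ => ?_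
  have := Real.add_one_le_exp (2 * g i)
  linarith

/-- the mass of the sets of small modified size -/
lemma Asum_mod {n : ℕ} (P g : Fin n → ℝ) (hP : ∀ i, 1 < P i) (hg : ∀ i, 0 ≤ g i) (lam V : ℝ)
    (hlam : 0 < lam) (hV : 0 < V) :
    Asum P g (Real.exp (V / 2)) - (2 : ℝ) ^ (-(V / (2 * lam))) * Real.exp (2 * ∑ i, g i) ≤
      Asum (fun i => P i * Real.exp lam) g (Real.exp V) := by
  have h1 := many_le g hg (V / (2 * lam))
  have h2 : Asum P g (Real.exp (V / 2)) ≤ Asum (fun i => P i * Real.exp lam) g (Real.exp V) +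
      ∑ s : Finset (Fin n) with V / (2 * lam) < (s.card : ℝ), ∏ i ∈ s, g i := by
    unfold Asum
    have h3 : (univ.filter (fun s : Finset (Fin n) => s.Nonempty ∧ ∏ i ∈ s, P i ≤ Real.exp (V / 2))) ⊆
        (univ.filter (fun s : Finset (Fin n) => s.Nonempty ∧
          ∏ i ∈ s, P i * Real.exp lam ≤ Real.exp V)) ∪
        (univ.filter (fun s : Finset (Fin n) => V / (2 * lam) < (s.card : ℝ))) := by
      intro s hs
      rw [mem_filter] at hs
      rw [mem_union, mem_filter, mem_filter]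
      by_cases hc : V / (2 * lam) < (s.card : ℝ)
      · exact Or.inr ⟨mem_univ _, hc⟩
      · left
        refine ⟨mem_univ _, hs.2.1, ?_⟩
        push Not at hc
        rw [Finset.prod_mul_distrib, Finset.prod_const, ← Real.exp_nat_mul]
        rw [le_div_iff₀ (by positivity)] at hc
        calc (∏ i ∈ s, P i) * Real.exp (s.card * lam) ≤ Real.exp (V / 2) * Real.exp (V / 2) := by
              refine mul_le_mul hs.2.2 (Real.exp_le_exp.mpr (by linarith)) (Real.exp_pos _).le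
                (Real.exp_pos _).le
          _ = Real.exp V := by
              rw [← Real.exp_add]
              congr 1
              ring
    refine (Finset.sum_le_sum_of_subset_of_nonneg h3 (fun s _ _ =>
      Finset.prod_nonneg fun i _ => hg i)).trans ?_
    rw [← Finset.sum_union_inter]
    have h4 : 0 ≤ ∑ s ∈ (univ.filter (fun s : Finset (Fin n) => s.Nonempty ∧
          ∏ i ∈ s, P i * Real.exp lam ≤ Real.exp V)) ∩
        (univ.filter (fun s : Finset (Fin n) => V / (2 * lam) < (s.card : ℝ))), ∏ i ∈ s, g i :=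
      Finset.sum_nonneg fun s _ => Finset.prod_nonneg fun i _ => hg i
    linarith
  linarith

/-- the sum of the reciprocals -/
lemma sum_inv_le (CM₀ : ℝ) (hM₀ : ∀ x : ℕ, 3 ≤ x →
    |∑ p ∈ (Finset.Icc 1 x).filter Nat.Prime, (1 : ℝ) / p - Real.log (Real.log x)| ≤ CM₀)
    (L y₁ z : ℝ) (hL : 1 ≤ Real.log L) (hz : Real.exp 2 ≤ z) (hzL : Real.log z ≤ L) :
    ∑ p ∈ PS y₁ z ∅, 1 / (p : ℝ) ≤ Real.log L + CM₀ := by
  have hz0 : 0 < z := lt_of_lt_of_le (Real.exp_pos _) hz
  have hz3 : 3 ≤ ⌊z⌋₊ := by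
    apply Nat.le_floor
    push_cast
    have e5 : (3:ℝ) ≤ Real.exp 2 := by
      have := Real.add_one_le_exp (2:ℝ); linarith
    linarith
  have h2 := (abs_le.mp (hM₀ ⌊z⌋₊ hz3)).2
  have h3 : ∑ p ∈ PS y₁ z ∅, 1 / (p:ℝ) ≤ ∑ p ∈ (Finset.Icc 1 ⌊z⌋₊).filter Nat.Prime, (1 : ℝ) / p := by
    apply Finset.sum_le_sum_of_subset_of_nonneg
    · intro p hp
      unfold PS at hp
      rw [Finset.mem_filter] at hp ⊢
      exact ⟨hp.1, hp.2.1⟩
    · intro p _ _
      positivity
  have h4 : Real.log (Real.log (⌊z⌋₊ : ℝ)) ≤ Real.log L := by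
    have e1 : (3:ℝ) ≤ (⌊z⌋₊ : ℝ) := by exact_mod_cast hz3
    have e2 : Real.log (⌊z⌋₊ : ℝ) ≤ L := by
      have : Real.log (⌊z⌋₊ : ℝ) ≤ Real.log z :=
        Real.log_le_log (by linarith) (Nat.floor_le hz0.le)
      linarith
    exact Real.log_le_log (Real.log_pos (by linarith)) e2
  linarith

end Pool.Agent.J4H30.SW
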