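import Pool.Agent.J4H30.SW.Ev

/-!
Project SW, part 5: the covering theorem for weighted sets.
-/

set_option autoImplicit false
set_option linter.unusedSectionVars false

namespace Pool.Agent.J4H30.SW

open Finset Filter Pool.Agent.H256R2.SC Pool.Agent.H410R2.EN

open scoped Classical

private lemma vaux1 (L : ℝ) (hL : 0 < L) : (2 / L) ^ 2 = 4 / L ^ 2 := by field_simp; norm_num
private lemma vaux2 (L : ℝ) (hL : 0 < L) : L * (5 / L ^ 2) = 5 / L := by field_simp
private lemma vaux3 (L : ℝ) (hL : 0 < L) : (L / 8) * (1 / L) = 1 / 8 := by field_simp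

theorem cov_wt (δ A' : ℝ) (hδ0 : 0 < δ) (hA' : 2 ≤ A') : ∃ c : ℝ, 0 < c ∧ ∃ C₁ : ℝ, 1 ≤ C₁ ∧
    ∃ L₀ : ℝ, ∀ L : ℝ, L₀ ≤ L → ∀ m : ℕ, δ * Real.log L ≤ m + 1 →
      (2:ℝ) ^ m * (C₁ * (Real.log L) ^ 2) ≤ L →
    ∃ PP : Finset ℕ, (∀ p ∈ PP, p.Prime ∧ L ^ A' < (p:ℝ) ∧ (p:ℝ) ≤ Real.exp (L / 1000)) ∧
      Pool.Agent.H410R2.AC.Pi1 PP ≤ Real.exp (3 * Real.log L) ∧
    ∀ (κ : Type) [Fintype κ] [DecidableEq κ], 1 ≤ Fintype.card κ → (Fintype.card κ : ℝ) ≤ c * L →
    ∀ (ρ : ℕ → κ → ℕ), (∀ p ∈ PP, ∀ k, ρ p k < p) → (∀ p ∈ PP, ∀ k l, k ≠ l → ρ p k ≠ ρ p l) →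
    ∀ (w : ℕ → ℝ) (M : ℕ) (A : ℝ) (err : Finset ℕ → ℝ), (∀ m, 0 ≤ w m) → 0 < A →
      Equid (fun p _ => 1 / (p:ℝ)) w M A PP ⌊Real.exp (L/10)⌋₊ err →
      Real.exp (1001 * (Real.log L)^3 * 2^m) * ET 32 PP ⌊Real.exp (L/10)⌋₊ err < A →
      ∃ a < M, w a ≠ 0 ∧ ∀ k, ∃ p ∈ PP, a % p = ρ p k := by
  obtain ⟨c₂, hc₂, hAl⟩ := A_lower
  obtain ⟨CM₀, hM₀⟩ := Pool.Agent.Helper256.KM.mertens_inv
  set CM : ℝ := max CM₀ 0 with hCM
  have hCM0 : 0 ≤ CM := le_max_right _ _
  set C₀ : ℝ := 8 * A' / c₂ + 2 * A' with hC₀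
  have hC1 : 1 ≤ C₀ := by
    rw [hC₀]
    have : 0 < 8 * A' / c₂ := by positivity
    linarith
  set c : ℝ := min (1 / 8) (c₂ * δ / (3200 * A')) with hc
  have hc0 : 0 < c := lt_min (by norm_num) (by positivity)
  have hc8 : c ≤ 1 / 8 := min_le_left _ _
  have hcc : c ≤ c₂ * δ / (3200 * A') := min_le_right _ _
  obtain ⟨L₀, hL₀⟩ := ev_facts2 CM
  refine ⟨c, hc0, 1000 * C₀, by linarith, L₀, ?_⟩
  intro L hLL m hm3 hm4
  obtain ⟨f1, f2, f5, f6⟩ := hL₀ L hLL
  set l : ℝ := Real.log L with hl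
  have hl0 : 0 < l := by linarith
  have hLpos : 0 < L := by linarith
  have hLexp : L = Real.exp l := (Real.exp_log hLpos).symm
  have h2m : (1:ℝ) ≤ 2 ^ m := one_le_pow₀ (by norm_num)
  have h2m0 : (0:ℝ) < 2 ^ m := by linarith
  set S' : ℝ := L / (1000 * l) with hS'
  set V : ℝ := S' / 2 ^ m with hV
  have hS'0 : 0 < S' := by positivity
  have hV0 : 0 < V := by positivity
  have hVS : 2 ^ m * V = S' := by rw [hV]; field_simp
  have hVC : C₀ * l ≤ V := by
    rw [hV, le_div_iff₀ h2m0, hS', le_div_iff₀ (by positivity)]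
    calc C₀ * l * 2 ^ m * (1000 * l) = 2 ^ m * (1000 * C₀ * l ^ 2) := by ring
      _ ≤ L := hm4
  have hVS' : V ≤ S' := by rw [hV]; exact div_le_self hS'0.le h2m
  set lam' : ℝ := V / (20 * l) with hlam'
  have hlam'0 : 0 < lam' := by positivity
  have hlamV : lam' ≤ V / 20 := by
    rw [hlam']
    apply div_le_div_of_nonneg_left hV0.le (by norm_num)
    linarith
  set z₀ : ℝ := Real.exp V with hz₀
  set z : ℝ := z₀ ^ (2 ^ m) with hz
  have hlogz0 : Real.log z₀ = V := Real.log_exp _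
  have hz01 : 1 < z₀ := by rw [hz₀]; exact Real.one_lt_exp_iff.mpr hV0
  have hlogzj : ∀ j : ℕ, Real.log (z₀ ^ (2 ^ j)) = (2:ℝ) ^ j * V := by
    intro j
    rw [Real.log_pow, hlogz0]
    push_cast
    ring
  have hlogz : Real.log z = S' := by rw [← hVS]; exact hlogzj m
  have hzpos : 0 < z := by rw [hz]; positivity
  have hzexp : z = Real.exp S' := by rw [← hlogz]; exact (Real.exp_log hzpos).symm
  have hSL : S' ≤ L / 10000 := by
    rw [hS']
    apply div_le_div_of_nonneg_left hLpos.le (by norm_num)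
    linarith
  have hSl : S' * (1000 * l) = L := by rw [hS']; field_simp
  set y₁ : ℝ := L ^ A' with hy₁
  have hL1 : 1 ≤ L := by linarith
  have hyL2 : L ^ 2 ≤ y₁ := by
    rw [hy₁, ← Real.rpow_natCast]
    exact Real.rpow_le_rpow_of_exponent_le hL1 (by push_cast; linarith)
  have hy9 : 9 ≤ y₁ := by
    refine le_trans ?_ hyL2
    calc (9:ℝ) ≤ 1 * L := by linarith
      _ ≤ L * L := mul_le_mul_of_nonneg_right hL1 hLpos.le
      _ = L ^ 2 := by ring
  have hy1 : 3 ≤ y₁ := by linarith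
  have hy0 : 0 < y₁ := by linarith
  have hlogy : Real.log y₁ = A' * l := by rw [hy₁, Real.log_rpow hLpos]
  have hlogy2 : Real.log y₁ ≤ V / 2 := by
    rw [hlogy]
    have : 2 * A' * l ≤ C₀ * l := by
      apply mul_le_mul_of_nonneg_right _ hl0.le
      rw [hC₀]
      have : 0 < 8 * A' / c₂ := by positivity
      linarith
    linarith
  -- the sieving primes
  set z' : ℝ := Real.exp (S' - lam') with hz'
  have hz'0 : 0 < z' := Real.exp_pos _
  set PP : Finset ℕ := PS y₁ z' ∅ with hPP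
  have hPPmem : ∀ p ∈ PP, p.Prime ∧ y₁ < (p:ℝ) ∧ (p:ℝ) ≤ z' := by
    intro p hp
    rw [hPP] at hp
    unfold PS at hp
    rw [Finset.mem_filter, Finset.mem_Icc] at hp
    refine ⟨hp.2.1, hp.2.2.1, ?_⟩
    calc (p:ℝ) ≤ (⌊z'⌋₊ : ℝ) := by exact_mod_cast hp.1.2
      _ ≤ z' := Nat.floor_le hz'0.le
  have hPprime : ∀ p ∈ PP, p.Prime := fun p hp => (hPPmem p hp).1
  have hzz' : z' ≤ Real.exp (L / 1000) := by
    rw [hz']
    apply Real.exp_le_exp.mpr
    linarith
  have hS40 : 2 * A' * l ≤ V := by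
    rw [hlogy] at hlogy2
    linarith
  have hVl : 40 ≤ V := by
    refine le_trans ?_ hS40
    calc (40:ℝ) = 2 * 2 * 10 := by norm_num
      _ ≤ 2 * A' * l := by
        apply mul_le_mul (by linarith) f1 (by norm_num) (by linarith)
  have hsum : ∑ p ∈ PP, 1 / (p : ℝ) ≤ l + CM := by
    have h1 := sum_inv_le CM₀ hM₀ L y₁ z' (by linarith) (by
      rw [hz']
      apply Real.exp_le_exp.mpr
      linarith) (by
      rw [hz', Real.log_exp]
      linarith)
    have := le_max_left CM₀ 0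
    linarith
  refine ⟨PP, fun p hp => ⟨(hPPmem p hp).1, (hPPmem p hp).2.1, (hPPmem p hp).2.2.trans hzz'⟩, ?_, ?_⟩
  · refine (Pi1_le PP hPprime).trans (Real.exp_le_exp.mpr ?_)
    linarith
  intro κ _ _ hκ1 hκ ρ hlt hne w M A err hw hA0 hEq hET
  set res : ℕ → κ → ℤ := fun p k => ((ρ p k : ℕ) : ℤ) with hres
  have hinj := res_inj hlt hne
  set n : ℕ := PP.card with hn
  set P : Fin n → ℝ := fun i => ((emb PP i : ℕ) : ℝ) with hP
  set g : Fin n → ℝ := fun i => 1 / ((emb PP i : ℕ) : ℝ) with hg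
  set P' : Fin n → ℝ := fun i => P i * Real.exp lam' with hP'
  have hPy : ∀ i, y₁ < P i := fun i => (hPPmem _ (emb_mem PP i)).2.1
  have hPz : ∀ i, P i ≤ z' := fun i => (hPPmem _ (emb_mem PP i)).2.2
  have hP1 : ∀ i, 1 < P i := fun i => by linarith [hPy i]
  have hP0 : ∀ i, 0 < P i := fun i => by linarith [hPy i]
  have hPP' : ∀ i, P i ≤ P' i := fun i =>
    le_mul_of_one_le_right (hP0 i).le (Real.one_le_exp hlam'0.le)
  have hP'1 : ∀ i, 1 < P' i := fun i => (hP1 i).trans_le (hPP' i)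
  have hP'z : ∀ i, P' i ≤ z := fun i => by
    calc P' i ≤ z' * Real.exp lam' := mul_le_mul_of_nonneg_right (hPz i) (Real.exp_pos _).le
      _ = z := by rw [hz', hzexp, ← Real.exp_add]; congr 1; ring
  have hg0 : ∀ i, 0 < g i := fun i => by
    have : g i = 1 / P i := rfl
    rw [this]
    exact div_pos one_pos (hP0 i)
  have hgP : ∀ i, g i = 1 / P i := fun i => rfl
  have hgy : ∀ i, g i ≤ 1 / y₁ := fun i => by
    rw [hgP]
    exact one_div_le_one_div_of_le (by linarith) (hPy i).le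
  have hgL : ∀ i, g i ≤ 1 / L ^ 2 := fun i =>
    (hgy i).trans (one_div_le_one_div_of_le (by positivity) hyL2)
  have hG : ∑ i, g i ≤ l + CM := by
    have h1 : ∑ i, g i = ∑ p ∈ PP, 1 / (p:ℝ) := by
      have : PP = univ.map (emb PP) := by
        ext p
        rw [Finset.mem_map]
        constructor
        · intro hp
          obtain ⟨i, hi⟩ := emb_surj PP hp
          exact ⟨i, Finset.mem_univ _, hi⟩
        · rintro ⟨i, _, rfl⟩
          exact emb_mem PP i
      conv_rhs => rw [this]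
      rw [Finset.sum_map]
    rw [h1]
    exact hsum
  have hGn : 0 ≤ ∑ i, g i := Finset.sum_nonneg (fun i _ => (hg0 i).le)
  -- the profile
  set lam : ℝ := c₂ / (4 * A' * l) with hlam
  have hlam0 : 0 < lam := by positivity
  have hA : ∀ j < m + 1, 1 ≤ Asum P' g (z₀ ^ (2 ^ j)) ∧
      lam * (2 ^ j * Real.log z₀) ≤ Asum P' g (z₀ ^ (2 ^ j)) := by
    intro j hj
    have h2j : (1:ℝ) ≤ 2 ^ j := one_le_pow₀ (by norm_num)
    have h2j0 : (0:ℝ) < 2 ^ j := by linarith
    have h2jm : (2:ℝ) ^ j ≤ 2 ^ m := pow_le_pow_right₀ (by norm_num) (by omega)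
    have hVj : V ≤ 2 ^ j * V := le_mul_of_one_le_left hV0.le h2j
    have e0 : z₀ ^ (2 ^ j) = Real.exp (2 ^ j * V) := by
      rw [hz₀, ← Real.exp_nat_mul]
      push_cast
      rfl
    have h1 : Asum P g (Real.exp (2 ^ j * V / 2)) = _ := Asum_enum PP (Real.exp (2 ^ j * V / 2))
    have hyx : y₁ ≤ Real.exp (2 ^ j * V / 2) := by
      rw [← Real.log_le_iff_le_exp hy0]
      linarith
    have hxz : Real.exp (2 ^ j * V / 2) ≤ z' := by
      rw [hz']
      apply Real.exp_le_exp.mpr
      have : 2 ^ j * V ≤ S' := by rw [← hVS]; exact mul_le_mul_of_nonneg_right h2jm hV0.le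
      linarith
    have h2 := hAl y₁ z' (Real.exp (2 ^ j * V / 2)) ∅ hy1 hyx hxz (by simp; linarith)
    rw [Real.log_exp, hlogy] at h2
    have h5 : c₂ * (2 ^ j * V / 2) / (A' * l) - 1 ≤ Asum P g (Real.exp (2 ^ j * V / 2)) := by
      rw [h1]
      exact h2
    have h6 := Asum_mod P g hP1 (fun i => (hg0 i).le) lam' (2 ^ j * V) hlam'0 (by positivity)
    rw [← e0] at h6
    have h7 : (2 : ℝ) ^ (-(2 ^ j * V / (2 * lam'))) * Real.exp (2 * ∑ i, g i) ≤ 1 := by
      have e1 : 10 * l ≤ 2 ^ j * V / (2 * lam') := by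
        rw [le_div_iff₀ (by positivity)]
        have e2 : 10 * l * (2 * lam') = V := by rw [hlam']; field_simp; ring
        rw [e2]
        exact hVj
      have e3 : (2:ℝ) ^ (-(2 ^ j * V / (2 * lam'))) ≤ Real.exp (-(6 * l)) := by
        rw [Real.rpow_def_of_pos (by norm_num)]
        apply Real.exp_le_exp.mpr
        have e4 := Real.log_two_gt_d9
        have e5 : (0.6:ℝ) * (10 * l) ≤ Real.log 2 * (2 ^ j * V / (2 * lam')) :=
          mul_le_mul (by linarith) e1 (by positivity) (by linarith)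
        linarith
      calc (2 : ℝ) ^ (-(2 ^ j * V / (2 * lam'))) * Real.exp (2 * ∑ i, g i) ≤
            Real.exp (-(6 * l)) * Real.exp (2 * ∑ i, g i) :=
            mul_le_mul_of_nonneg_right e3 (Real.exp_pos _).le
        _ = Real.exp (-(6 * l) + 2 * ∑ i, g i) := by rw [← Real.exp_add]
        _ ≤ Real.exp 0 := Real.exp_le_exp.mpr (by linarith)
        _ = 1 := Real.exp_zero
    have h8 : c₂ * (2 ^ j * V / 2) / (A' * l) = 2 * (lam * (2 ^ j * V)) := by
      rw [hlam]
      field_simp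
      ring
    have h9 : 2 ≤ lam * (2 ^ j * V) := by
      have e1 : 8 * A' * l / c₂ ≤ V := by
        refine le_trans ?_ hVC
        rw [hC₀]
        have : 0 < 2 * A' * l := by positivity
        have e2 : (8 * A' / c₂ + 2 * A') * l = 8 * A' * l / c₂ + 2 * A' * l := by ring
        linarith
      calc (2:ℝ) = lam * (8 * A' * l / c₂) := by rw [hlam]; field_simp; norm_num
        _ ≤ lam * (2 ^ j * V) := mul_le_mul_of_nonneg_left (e1.trans hVj) hlam0.le
    rw [hlogz0]
    change 1 ≤ Asum (fun i => P i * Real.exp lam') g (z₀ ^ (2 ^ j)) ∧ _ ≤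
      Asum (fun i => P i * Real.exp lam') g (z₀ ^ (2 ^ j))
    constructor <;> linarith
  obtain ⟨h, H⟩ := exists_h P' g hP'1 hg0 (m + 1) (by omega) z₀ lam hz01 hlam0 hA
  have hzz : z₀ ^ (2 ^ (m + 1 - 1)) = z := by rw [hz, Nat.add_sub_cancel]
  rw [hzz] at H
  set K : ℝ := 4 / (lam * ((m + 1 : ℕ) : ℝ)) with hK
  have hK16 : K ≤ 16 * A' / (c₂ * δ) := by
    rw [hK, div_le_div_iff₀ (by positivity) (by positivity)]
    have h1 : c₂ * δ / (4 * A') ≤ lam * ((m + 1 : ℕ) : ℝ) := by
      push_cast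
      calc c₂ * δ / (4 * A') = lam * (δ * l) := by rw [hlam]; field_simp
        _ ≤ lam * (m + 1) := mul_le_mul_of_nonneg_left hm3 hlam0.le
    rw [div_le_iff₀ (by positivity)] at h1
    linarith
  have hK0 : 0 ≤ K := H.K0
  set u : ℝ := (Fintype.card κ : ℝ) with hu
  have hu0 : 0 ≤ u := Nat.cast_nonneg _
  have huL : u ≤ L / 8 := by
    calc u ≤ c * L := hκ
      _ ≤ 1 / 8 * L := mul_le_mul_of_nonneg_right hc8 hLpos.le
      _ = L / 8 := by ring
  -- parameters
  set Q : ℝ := Real.exp (L / 40) with hQ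
  set J : ℕ := 2 * ⌈11 * l⌉₊ with hJ
  have hJ1 : 22 * l ≤ (J:ℝ) := by
    have := Nat.le_ceil (11 * l)
    rw [hJ]; push_cast; linarith
  have hJ2 : (J:ℝ) ≤ 23 * l := by
    have := Nat.ceil_lt_add_one (show 0 ≤ 11 * l by positivity)
    rw [hJ]; push_cast; linarith
  have hJe : Even J := ⟨⌈11 * l⌉₊, by rw [hJ]; ring⟩
  have hQ1 : 1 ≤ Q := Real.one_le_exp (by positivity)
  have hzJ : z ^ J ≤ Real.exp (23 * L / 1000) := by
    rw [hzexp, ← Real.exp_nat_mul]
    apply Real.exp_le_exp.mpr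
    calc (J:ℝ) * S' ≤ (23 * l) * S' := mul_le_mul_of_nonneg_right hJ2 hS'0.le
      _ = 23 * L / 1000 := by rw [hS']; field_simp
  have hQzJ : Q ^ 2 * z ^ J ≤ Real.exp (L / 10) := by
    calc Q ^ 2 * z ^ J ≤ Real.exp (L / 40) ^ 2 * Real.exp (23 * L / 1000) :=
          mul_le_mul_of_nonneg_left hzJ (by positivity)
      _ = Real.exp (L / 20 + 23 * L / 1000) := by
          rw [← Real.exp_nat_mul, ← Real.exp_add]
          congr 1
          push_cast
          ring
      _ ≤ Real.exp (L / 10) := Real.exp_le_exp.mpr (by linarith)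
  -- sizes of supports
  have hsupp : ∀ D : Col n κ, qq P' D ≤ Q → ((supp D).card : ℝ) ≤ L / 40 := by
    intro D hD
    have h1 : Real.exp ((supp D).card : ℝ) ≤ qq P' D := by
      unfold qq
      rw [prod_nu1]
      have : Real.exp ((supp D).card : ℝ) = ∏ i ∈ supp D, Real.exp 1 := by
        rw [Finset.prod_const, ← Real.exp_nat_mul, mul_one]
      rw [this]
      apply Finset.prod_le_prod
      · intro i _; exact (Real.exp_pos _).le
      · intro i _
        have := Real.exp_one_lt_d9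
        linarith [hPy i, hPP' i]
    have h2 := h1.trans hD
    rw [hQ] at h2
    exact Real.exp_le_exp.mp h2
  set M₀ : ℕ := ⌊500 * l ^ 2 * 2 ^ m⌋₊ with hM₀'
  have hsupp2 : ∀ D : Col n κ, qq P' D ≤ Q → (supp D).card ≤ M₀ := by
    intro D hD
    have h1 : Real.exp ((supp D).card * lam') ≤ qq P' D := by
      unfold qq
      rw [prod_nu1]
      have : Real.exp ((supp D).card * lam') = ∏ i ∈ supp D, Real.exp lam' := by
        rw [Finset.prod_const, ← Real.exp_nat_mul]
      rw [this]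
      apply Finset.prod_le_prod
      · intro i _; exact (Real.exp_pos _).le
      · intro i _
        exact le_mul_of_one_le_left (Real.exp_pos _).le (hP1 i).le
    have h2 := h1.trans hD
    rw [hQ] at h2
    have h3 := Real.exp_le_exp.mp h2
    rw [hM₀']
    apply Nat.le_floor
    have h4 : 500 * l ^ 2 * 2 ^ m * lam' = L / 40 := by
      rw [hlam', hV, hS']
      field_simp
      norm_num
    rw [← h4] at h3
    exact le_of_mul_le_mul_right h3 hlam'0
  have hδ : ∀ D : Col n κ, qq P' D ≤ Q → 2 * ∑ i with D i ≠ none, g i ≤ 2 / L := by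
    intro D hD
    have h1 : ∑ i with D i ≠ none, g i ≤ (supp D).card * (1 / L ^ 2) := by
      have : ∑ i ∈ supp D, g i ≤ ∑ i ∈ supp D, (1 / L ^ 2) := Finset.sum_le_sum (fun i _ => hgL i)
      rw [Finset.sum_const, nsmul_eq_mul] at this
      exact this
    have h2 := hsupp D hD
    have h3 : ((supp D).card : ℝ) * (1 / L ^ 2) ≤ L / 40 * (1 / L ^ 2) :=
      mul_le_mul_of_nonneg_right h2 (by positivity)
    have h4 : L / 40 * (1 / L ^ 2) = 1 / (40 * L) := by field_simp
    have h5 : 1 / (40 * L) ≤ 1 / L := by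
      apply one_div_le_one_div_of_le hLpos
      linarith
    have h6 : 2 / L = 2 * (1 / L) := by ring
    rw [h6]
    linarith
  -- the count
  set D0 : ℕ := ⌊Real.exp (L / 10)⌋₊ with hD0
  set err' : Finset (Fin n) → ℝ := fun T => err (T.map (emb PP)) with herr'
  have hevent : ∀ D : Col n κ, qq P' D ≤ Q ^ 2 * z ^ J →
      |∑ a ∈ range M, w a * ind D (colr PP res (a : ℤ)) - A * nu g D| ≤ err' (supp D) := by
    intro D hD
    rw [event_sum hlt hne]
    have h2 : nu g D = ∏ p ∈ (supp D).map (emb PP), 1 / (p : ℝ) := by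
      rw [Finset.prod_map]
      unfold nu
      rw [prod_nu1]
    rw [h2]
    refine hEq ((supp D).map (emb PP)) (map_sub PP _) ?_ (cfun PP ρ D) (cfun_lt hlt D)
    have h3 : ((∏ p ∈ (supp D).map (emb PP), p : ℕ) : ℝ) ≤ Real.exp (L / 10) := by
      refine le_trans ?_ (hD.trans hQzJ)
      rw [Finset.prod_map]
      unfold qq
      rw [prod_nu1]
      push_cast
      refine Finset.prod_le_prod (fun i _ => Nat.cast_nonneg _) fun i _ => hPP' i
    exact Nat.le_floor h3
  have herr0 : ∀ T ⊆ PP, ∏ p ∈ T, p ≤ D0 → 0 ≤ err T := by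
    intro T hT hTD
    exact (abs_nonneg _).trans (hEq T hT hTD (fun _ => 0) fun p hp => (hPprime p (hT hp)).pos)
  have hET' : ∑ T : Finset (Fin n) with ∏ i ∈ T, P' i ≤ Q ^ 2 * z ^ J,
      (32:ℝ) ^ T.card * |err' T| ≤ ET 32 PP D0 err := by
    have h1 := sum_map_le PP D0 err 32 (Q ^ 2 * z ^ J) lam' hlam'0.le
      (lt_of_le_of_lt hQzJ (Nat.lt_floor_add_one _)) herr0
    push_cast at h1
    exact h1
  have hET0 : 0 ≤ ET 32 PP D0 err := by
    refine le_trans (Finset.sum_nonneg fun T _ => ?_) hET'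
    positivity
  -- apply the core theorem
  have hL8 : (80:ℝ) ≤ L := by linarith
  obtain ⟨a, ha, hwa, hcov⟩ := core_wt (κ := κ) w M A (fun a => colr PP res (a : ℤ)) H Q (2 / L) 3 J M₀
    err' hw hJe (by norm_num) hA0 hκ1 hQ1 hP'z
    (fun i => by
      have h1 : (1:ℝ) / y₁ ≤ 1 := by rw [div_le_one (by linarith)]; linarith
      exact (hgy i).trans h1)
    (fun i => by
      have h1 : (1:ℝ) / y₁ ≤ 1 / 9 := one_div_le_one_div_of_le (by norm_num) hy9
      have := hgy i
      linarith)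
    (fun i => by
      have h1 : u * g i ≤ (L / 8) * (1 / L ^ 2) := mul_le_mul huL (hgL i) (hg0 i).le (by positivity)
      have h2 : (L / 8) * (1 / L ^ 2) = 1 / (8 * L) := by field_simp
      have h3 : 1 / (8 * L) ≤ 1 := by rw [div_le_one (by positivity)]; linarith
      linarith)
    hδ
    (by
      have : u * (2 / L) ≤ (L / 8) * (2 / L) := mul_le_mul_of_nonneg_right huL (by positivity)
      have e : (L / 8) * (2 / L) = 1 / 4 := by field_simp; norm_num
      linarith)
    hsupp2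
    (by
      rw [hlogz]
      have h1 : 2 * u * K / S' ≤ 10 * l := by
        rw [div_le_iff₀ hS'0]
        have e1 : 2 * u * K ≤ 2 * (c * L) * (16 * A' / (c₂ * δ)) := by
          apply mul_le_mul (by linarith) hK16 hK0 (by positivity)
        have e2 : 2 * (c * L) * (16 * A' / (c₂ * δ)) ≤ L / 100 := by
          have : c * (16 * A' / (c₂ * δ)) ≤ 1 / 200 := by
            calc c * (16 * A' / (c₂ * δ)) ≤ c₂ * δ / (3200 * A') * (16 * A' / (c₂ * δ)) :=
                  mul_le_mul_of_nonneg_right hcc (by positivity)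
              _ = 1 / 200 := by field_simp; norm_num
          calc 2 * (c * L) * (16 * A' / (c₂ * δ)) = 2 * L * (c * (16 * A' / (c₂ * δ))) := by ring
            _ ≤ 2 * L * (1 / 200) := mul_le_mul_of_nonneg_left this (by linarith)
            _ = L / 100 := by ring
        have e3 : L / 100 = 10 * l * S' := by rw [hS']; field_simp; norm_num
        linarith
      have h2 : 25 * l - 1 ≤ Real.log (Q / z) / S' := by
        rw [Real.log_div (by positivity) hzpos.ne', hQ, Real.log_exp, hlogz, sub_div,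
          div_self hS'0.ne']
        have : 25 * l ≤ L / 40 / S' := by
          rw [le_div_iff₀ hS'0]
          linarith
        linarith
      have h3 : Real.exp (2 * u * K / S' - Real.log (Q / z) / S') ≤ 1 / L ^ 2 := by
        have e1 : (1:ℝ) / L ^ 2 = Real.exp (-(2 * l)) := by
          rw [Real.exp_neg, hLexp, ← Real.exp_nat_mul]
          push_cast
          rw [one_div]
        rw [e1]
        apply Real.exp_le_exp.mpr
        linarith
      have h4 : (u + 1) * ((2 / L) ^ 2 + Real.exp (2 * u * K / S' -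
          Real.log (Q / z) / S')) ≤ L * (5 / L ^ 2) := by
        apply mul_le_mul (by linarith) _ (by positivity) hLpos.le
        have : (2 / L) ^ 2 = 4 / L ^ 2 := vaux1 L hLpos
        rw [this]
        have e : (5:ℝ) / L ^ 2 = 4 / L ^ 2 + 1 / L ^ 2 := by ring
        rw [e]
        linarith
      have h5 : L * (5 / L ^ 2) = 5 / L := vaux2 L hLpos
      have h6 : 5 / L ≤ 1 / 8 := by rw [div_le_div_iff₀ hLpos (by norm_num)]; linarith
      linarith)
    (by
      have h1 : (1 / (3:ℝ)) ^ J ≤ Real.exp (-(22 * l)) := by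
        have e1 : (1 / (3:ℝ)) = Real.exp (-(Real.log 3)) := by
          rw [Real.exp_neg, Real.exp_log (by norm_num)]; norm_num
        rw [e1, ← Real.exp_nat_mul]
        apply Real.exp_le_exp.mpr
        have e2 : (1:ℝ) ≤ Real.log 3 := by
          rw [Real.le_log_iff_exp_le (by norm_num)]
          have := Real.exp_one_lt_d9
          linarith
        have e3 : 22 * l ≤ J * Real.log 3 := by
          calc 22 * l ≤ J * 1 := by linarith
            _ ≤ J * Real.log 3 := mul_le_mul_of_nonneg_left e2 (Nat.cast_nonneg _)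
        linarith
      have h2 : Real.exp ((2 + 6 * 3) * ∑ i, g i) ≤ Real.exp (21 * l) := by
        apply Real.exp_le_exp.mpr
        linarith
      have h3 : (1 / (3:ℝ)) ^ J * Real.exp ((2 + 6 * 3) * ∑ i, g i) ≤ 1 / L := by
        calc (1 / (3:ℝ)) ^ J * Real.exp ((2 + 6 * 3) * ∑ i, g i)
            ≤ Real.exp (-(22 * l)) * Real.exp (21 * l) :=
              mul_le_mul h1 h2 (Real.exp_pos _).le (Real.exp_pos _).le
          _ = Real.exp (-l) := by rw [← Real.exp_add]; congr 1; ring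
          _ = 1 / L := by rw [Real.exp_neg, ← hLexp, one_div]
      calc u * (1 / (3:ℝ)) ^ J * Real.exp ((2 + 6 * 3) * ∑ i, g i)
          = u * ((1 / (3:ℝ)) ^ J * Real.exp ((2 + 6 * 3) * ∑ i, g i)) := by ring
        _ ≤ (L / 8) * (1 / L) := mul_le_mul huL h3 (by positivity) (by positivity)
        _ = 1 / 8 := vaux3 L hLpos)
    hevent
    (by
      have h0 : u ^ M₀ ≤ Real.exp (l * (500 * l ^ 2 * 2 ^ m)) := by
        calc u ^ M₀ ≤ (Real.exp l) ^ M₀ := by
              apply pow_le_pow_left₀ hu0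
              rw [← hLexp]
              linarith
          _ = Real.exp (M₀ * l) := by rw [← Real.exp_nat_mul]
          _ ≤ Real.exp (l * (500 * l ^ 2 * 2 ^ m)) := by
              apply Real.exp_le_exp.mpr
              have : (M₀ : ℝ) ≤ 500 * l ^ 2 * 2 ^ m := Nat.floor_le (by positivity)
              rw [mul_comm]
              exact mul_le_mul_of_nonneg_left this hl0.le
      have h1 : (u ^ M₀ * Real.exp (∑ i, g i)) ^ 2 * (1 + u) ≤
          Real.exp (1001 * l ^ 3 * 2 ^ m) / 2 := by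
        have e1 : (u ^ M₀ * Real.exp (∑ i, g i)) ^ 2 ≤
            Real.exp (1000 * l ^ 3 * 2 ^ m + (2 * l + 2 * CM)) := by
          calc (u ^ M₀ * Real.exp (∑ i, g i)) ^ 2 ≤
                (Real.exp (l * (500 * l ^ 2 * 2 ^ m)) * Real.exp (l + CM)) ^ 2 := by
                apply pow_le_pow_left₀ (by positivity)
                exact mul_le_mul h0 (Real.exp_le_exp.mpr hG) (Real.exp_pos _).le
                  (Real.exp_pos _).le
            _ = _ := by
                rw [← Real.exp_add, ← Real.exp_nat_mul]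
                congr 1
                push_cast
                ring
        have e2 : 1 + u ≤ Real.exp l / 2 := by
          rw [← hLexp]
          linarith
        calc (u ^ M₀ * Real.exp (∑ i, g i)) ^ 2 * (1 + u) ≤
              Real.exp (1000 * l ^ 3 * 2 ^ m + (2 * l + 2 * CM)) * (Real.exp l / 2) :=
              mul_le_mul e1 e2 (by linarith) (Real.exp_pos _).le
          _ = Real.exp (1000 * l ^ 3 * 2 ^ m + (2 * l + 2 * CM) + l) / 2 := by
              rw [Real.exp_add (1000 * l ^ 3 * 2 ^ m + (2 * l + 2 * CM)) l]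
              ring
          _ ≤ Real.exp (1001 * l ^ 3 * 2 ^ m) / 2 := by
              apply div_le_div_of_nonneg_right _ (by norm_num)
              apply Real.exp_le_exp.mpr
              have e3 : 100 * l ≤ l ^ 3 := by
                calc 100 * l = 10 * 10 * l := by ring
                  _ ≤ l * l * l := by
                    apply mul_le_mul_of_nonneg_right _ hl0.le
                    exact mul_le_mul f1 f1 (by norm_num) hl0.le
                  _ = l ^ 3 := by ring
              have e4 : l ^ 3 ≤ l ^ 3 * 2 ^ m := le_mul_of_one_le_right (by positivity) h2m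
              linarith
      calc (u ^ M₀ * Real.exp (∑ i, g i)) ^ 2 * (1 + u) *
            (∑ T : Finset (Fin n) with ∏ i ∈ T, P' i ≤ Q ^ 2 * z ^ J, 32 ^ T.card * |err' T|)
          ≤ (Real.exp (1001 * l ^ 3 * 2 ^ m) / 2) * ET 32 PP D0 err :=
            mul_le_mul h1 hET' (Finset.sum_nonneg fun T _ => by positivity) (by positivity)
        _ = (Real.exp (1001 * l ^ 3 * 2 ^ m) * ET 32 PP D0 err) / 2 := by ring
        _ < A / 2 := by linarith)
  refine ⟨a, ha, hwa, fun k => ?_⟩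
  obtain ⟨i, hi⟩ := hcov k
  exact ⟨emb PP i, emb_mem PP i, (colr_nat hlt hne a i k).mp hi⟩

end Pool.Agent.J4H30.SW
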