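import Pool.Agent.J4H30.SW.Cov

/-!
Project SW, part 4: the elementary events for a family of residue classes of naturals.
-/

set_option autoImplicit false
set_option linter.unusedSectionVars false

namespace Pool.Agent.J4H30.SW

open Finset Filter Pool.Agent.H256R2.SC

open scoped Classical

variable {κ : Type} [Fintype κ] [DecidableEq κ]

/-- residue classes of an elementary event -/
noncomputable def cfun (PP : Finset ℕ) (ρ : ℕ → κ → ℕ) (D : Col PP.card κ) (p : ℕ) : ℕ :=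
  if h : ∃ i, emb PP i = p then (match D h.choose with | none => 0 | some k => ρ p k) else 0

lemma cfun_emb (PP : Finset ℕ) (ρ : ℕ → κ → ℕ) (D : Col PP.card κ) (i : Fin PP.card) (k : κ)
    (h : D i = some k) : cfun PP ρ D (emb PP i) = ρ (emb PP i) k := by
  have h1 : ∃ j, emb PP j = emb PP i := ⟨i, rfl⟩
  have h2 : h1.choose = i := (emb PP).injective h1.choose_spec
  unfold cfun
  rw [dif_pos h1, h2, h]

lemma dvd_iff_mod {p m r : ℕ} (hr : r < p) : ((p : ℤ) ∣ (m : ℤ) - (r : ℤ)) ↔ m % p = r := by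
  constructor
  · intro h
    have h1 : r ≡ m [MOD p] := (Nat.modEq_iff_dvd).mpr h
    have h2 : m % p = r % p := h1.symm
    rw [h2, Nat.mod_eq_of_lt hr]
  · intro h
    have h1 : r ≡ m [MOD p] := by
      unfold Nat.ModEq
      rw [h, Nat.mod_eq_of_lt hr]
    exact (Nat.modEq_iff_dvd).mp h1

lemma res_inj {PP : Finset ℕ} {ρ : ℕ → κ → ℕ} (hlt : ∀ p ∈ PP, ∀ k, ρ p k < p)
    (hne : ∀ p ∈ PP, ∀ k l, k ≠ l → ρ p k ≠ ρ p l) :
    ∀ p ∈ PP, ∀ k l : κ, k ≠ l → ¬ ((p : ℤ) ∣ ((ρ p k : ℕ) : ℤ) - ((ρ p l : ℕ) : ℤ)) := by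
  intro p hp k l hkl h
  rw [dvd_iff_mod (hlt p hp l), Nat.mod_eq_of_lt (hlt p hp k)] at h
  exact hne p hp k l hkl h

lemma colr_nat {PP : Finset ℕ} {ρ : ℕ → κ → ℕ} (hlt : ∀ p ∈ PP, ∀ k, ρ p k < p)
    (hne : ∀ p ∈ PP, ∀ k l, k ≠ l → ρ p k ≠ ρ p l) (m : ℕ) (i : Fin PP.card) (k : κ) :
    colr PP (fun p k => ((ρ p k : ℕ) : ℤ)) (m : ℤ) i = some k ↔ m % emb PP i = ρ (emb PP i) k := by
  rw [colr_eq (res_inj hlt hne), dvd_iff_mod (hlt _ (emb_mem PP i) k)]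

/-- weight of an elementary event -/
lemma event_sum {PP : Finset ℕ} {ρ : ℕ → κ → ℕ} (hlt : ∀ p ∈ PP, ∀ k, ρ p k < p)
    (hne : ∀ p ∈ PP, ∀ k l, k ≠ l → ρ p k ≠ ρ p l) (w : ℕ → ℝ) (M : ℕ) (D : Col PP.card κ) :
    ∑ m ∈ range M, w m * ind D (colr PP (fun p k => ((ρ p k : ℕ) : ℤ)) (m : ℤ)) =
      ∑ m ∈ (range M).filter (fun m => ∀ p ∈ (supp D).map (emb PP), m % p = cfun PP ρ D p), w m := by
  rw [Finset.sum_filter]
  refine Finset.sum_congr rfl fun m _ => ?_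
  unfold ind
  have h1 : (∀ i, D i ≠ none → colr PP (fun p k => ((ρ p k : ℕ) : ℤ)) (m : ℤ) i = D i) ↔
      ∀ p ∈ (supp D).map (emb PP), m % p = cfun PP ρ D p := by
    constructor
    · intro h p hp
      rw [Finset.mem_map] at hp
      obtain ⟨i, hi, rfl⟩ := hp
      rw [mem_supp] at hi
      obtain ⟨k, hk⟩ := Option.ne_none_iff_exists'.mp hi
      rw [cfun_emb PP ρ D i k hk]
      have h2 := h i hi
      rw [hk, colr_nat hlt hne] at h2
      exact h2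
    · intro h i hi
      obtain ⟨k, hk⟩ := Option.ne_none_iff_exists'.mp hi
      have h2 := h (emb PP i) (Finset.mem_map_of_mem _ (mem_supp.mpr hi))
      rw [cfun_emb PP ρ D i k hk] at h2
      rw [hk, colr_nat hlt hne]
      exact h2
  by_cases h : ∀ i, D i ≠ none → colr PP (fun p k => ((ρ p k : ℕ) : ℤ)) (m : ℤ) i = D i
  · rw [if_pos h, if_pos (h1.mp h), mul_one]
  · rw [if_neg h, if_neg (fun h2 => h (h1.mpr h2)), mul_zero]

lemma cfun_lt {PP : Finset ℕ} {ρ : ℕ → κ → ℕ} (hlt : ∀ p ∈ PP, ∀ k, ρ p k < p)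
    (D : Col PP.card κ) : ∀ p ∈ (supp D).map (emb PP), cfun PP ρ D p < p := by
  intro p hp
  rw [Finset.mem_map] at hp
  obtain ⟨i, hi, rfl⟩ := hp
  rw [mem_supp] at hi
  obtain ⟨k, hk⟩ := Option.ne_none_iff_exists'.mp hi
  rw [cfun_emb PP ρ D i k hk]
  exact hlt _ (emb_mem PP i) k

lemma map_sub (PP : Finset ℕ) (T : Finset (Fin PP.card)) : T.map (emb PP) ⊆ PP := by
  intro p hp
  rw [Finset.mem_map] at hp
  obtain ⟨i, _, rfl⟩ := hp
  exact emb_mem PP i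

/-- sum over the sets of indices -/
lemma sum_map_le (PP : Finset ℕ) (D0 : ℕ) (err : Finset ℕ → ℝ) (K : ℕ) (Y : ℝ) (lam : ℝ)
    (hlam : 0 ≤ lam) (hY : Y < (D0 : ℝ) + 1) (herr : ∀ T ⊆ PP, ∏ p ∈ T, p ≤ D0 → 0 ≤ err T) :
    ∑ T : Finset (Fin PP.card) with ∏ i ∈ T, (((emb PP i : ℕ) : ℝ) * Real.exp lam) ≤ Y,
      (K : ℝ) ^ T.card * |err (T.map (emb PP))| ≤ Pool.Agent.H410R2.EN.ET K PP D0 err := by
  have h1 : ∀ T : Finset (Fin PP.card), ∏ i ∈ T, (((emb PP i : ℕ) : ℝ) * Real.exp lam) ≤ Y →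
      ∏ p ∈ T.map (emb PP), p ≤ D0 := by
    intro T hT
    have h2 : ((∏ p ∈ T.map (emb PP), p : ℕ) : ℝ) ≤ ∏ i ∈ T, (((emb PP i : ℕ) : ℝ) * Real.exp lam) := by
      rw [Finset.prod_map]
      push_cast
      refine Finset.prod_le_prod (fun i _ => Nat.cast_nonneg _) fun i _ => ?_
      exact le_mul_of_one_le_right (Nat.cast_nonneg _) (Real.one_le_exp hlam)
    have h3 : ((∏ p ∈ T.map (emb PP), p : ℕ) : ℝ) < ((D0 + 1 : ℕ) : ℝ) := by
      push_cast at h2 ⊢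
      linarith
    exact Nat.lt_succ_iff.mp (by exact_mod_cast h3)
  unfold Pool.Agent.H410R2.EN.ET
  calc ∑ T : Finset (Fin PP.card) with ∏ i ∈ T, (((emb PP i : ℕ) : ℝ) * Real.exp lam) ≤ Y,
      (K : ℝ) ^ T.card * |err (T.map (emb PP))|
      = ∑ T' ∈ (univ.filter (fun T : Finset (Fin PP.card) =>
          ∏ i ∈ T, (((emb PP i : ℕ) : ℝ) * Real.exp lam) ≤ Y)).map
            ⟨fun T => T.map (emb PP), Finset.map_injective (emb PP)⟩,
          (K : ℝ) ^ T'.card * |err T'| := by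
        rw [Finset.sum_map]
        refine Finset.sum_congr rfl fun T _ => ?_
        simp
    _ ≤ ∑ T' ∈ PP.powerset.filter (fun T : Finset ℕ => ∏ p ∈ T, p ≤ D0),
          (K : ℝ) ^ T'.card * |err T'| := by
        refine Finset.sum_le_sum_of_subset_of_nonneg ?_ (fun T' _ _ => by positivity)
        intro T' hT'
        rw [Finset.mem_map] at hT'
        obtain ⟨T, hT, rfl⟩ := hT'
        rw [mem_filter, mem_powerset]
        exact ⟨map_sub PP T, h1 T (mem_filter.mp hT).2⟩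
    _ = _ := by
        refine Finset.sum_congr rfl fun T' hT' => ?_
        rw [mem_filter, mem_powerset] at hT'
        rw [abs_of_nonneg (herr T' hT'.1 hT'.2)]

lemma Pi1_le (PP : Finset ℕ) (hP : ∀ p ∈ PP, p.Prime) :
    Pool.Agent.H410R2.AC.Pi1 PP ≤ Real.exp (2 * ∑ p ∈ PP, 1 / (p : ℝ)) := by
  unfold Pool.Agent.H410R2.AC.Pi1
  rw [Finset.mul_sum, Real.exp_sum]
  have h2 : ∀ p ∈ PP, (2 : ℝ) ≤ p := fun p hp => by exact_mod_cast (hP p hp).two_le
  refine Finset.prod_le_prod (fun p hp => ?_) fun p hp => ?_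
  · have := h2 p hp
    have h3 : 0 < (p : ℝ) - 1 := by linarith
    positivity
  · have := h2 p hp
    have h3 : 1 / ((p : ℝ) - 1) ≤ 2 * (1 / (p : ℝ)) := by
      rw [mul_one_div, div_le_div_iff₀ (by linarith) (by linarith)]
      linarith
    have h4 := Real.add_one_le_exp (2 * (1 / (p : ℝ)))
    linarith

end Pool.Agent.J4H30.SW
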