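import Pool.Agent.J4H30.SW.Win
import Pool.Agent.J4H30.AW.PosA

/-!
Project SW, part 7: the windows theorem.
-/

set_option autoImplicit false

open Finset Filter

namespace Pool.Agent.J4H30.SW

open Pool.Agent.H410R2.AC Pool.Agent.H410R2.EN Pool.Agent.H143R2.ACF Pool.Agent.J4H30.AW

lemma tendsto_logN : Tendsto (fun N : ℕ => Real.log N) atTop atTop :=
  Real.tendsto_log_atTop.comp tendsto_natCast_atTop_atTop

lemma ev_x (δ e θ C₁ L₀ : ℝ) (A : ℕ) (hδ : 0 < δ) (hθ : 0 < θ) :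
    ∀ᶠ x : ℝ in atTop, 1 ≤ x ∧ L₀ ≤ θ * x ∧
      3 * Real.log (Real.log x) + e ≤ δ / 2 * Real.log x ∧ 1 ≤ Real.log x ∧
      C₁ / θ ≤ Real.log (θ * x) ∧ 1 ≤ Real.log (θ * x) ∧
      2 * x ^ A ≤ Real.exp (x ^ δ) ∧ x ^ A ≤ (θ * x) ^ (A + 2) ∧ x ≤ (θ * x) ^ (A + 2) ∧
      e ≤ x ^ δ ∧ x ≤ Real.exp (θ * x) := by
  have hθx : Tendsto (fun x : ℝ => θ * x) atTop atTop := tendsto_id.const_mul_atTop hθ
  have h1 : ∀ᶠ x : ℝ in atTop, 1 ≤ x := eventually_ge_atTop 1
  have h2 : ∀ᶠ x : ℝ in atTop, L₀ ≤ θ * x := hθx.eventually_ge_atTop _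
  have h3 : ∀ᶠ x : ℝ in atTop, 3 * Real.log (Real.log x) + e ≤ δ / 2 * Real.log x := by
    have e1 : ∀ᶠ y : ℝ in atTop, 3 * Real.log y + e ≤ δ / 2 * y := by
      have e2 := Real.isLittleO_log_id_atTop.def (show (0:ℝ) < δ / 12 by positivity)
      filter_upwards [e2, eventually_ge_atTop (1:ℝ), eventually_ge_atTop (4 * e / δ)] with y hy hy1 hy2
      rw [Real.norm_eq_abs, abs_of_nonneg (Real.log_nonneg hy1), Real.norm_eq_abs] at hy
      simp only [id] at hy
      rw [abs_of_nonneg (by linarith)] at hy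
      rw [div_le_iff₀ hδ] at hy2
      linarith
    exact Real.tendsto_log_atTop.eventually e1
  have h4 : ∀ᶠ x : ℝ in atTop, 1 ≤ Real.log x := Real.tendsto_log_atTop.eventually_ge_atTop 1
  have h5 : ∀ᶠ x : ℝ in atTop, C₁ / θ ≤ Real.log (θ * x) :=
    (Real.tendsto_log_atTop.comp hθx).eventually_ge_atTop _
  have h6 : ∀ᶠ x : ℝ in atTop, 1 ≤ Real.log (θ * x) :=
    (Real.tendsto_log_atTop.comp hθx).eventually_ge_atTop _
  have h7 : ∀ᶠ x : ℝ in atTop, 2 * x ^ A ≤ Real.exp (x ^ δ) := by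
    -- x ^ A = (x ^ δ) ^ (A / δ)
    have e1 : Tendsto (fun x : ℝ => x ^ δ) atTop atTop := tendsto_rpow_atTop hδ
    have e2 : ∀ᶠ y : ℝ in atTop, 2 * y ^ ((A : ℝ) / δ) ≤ Real.exp y := by
      have e3 := (isLittleO_rpow_exp_atTop ((A : ℝ) / δ)).def (show (0:ℝ) < 1 / 2 by norm_num)
      filter_upwards [e3, eventually_ge_atTop (0:ℝ)] with y hy hy0
      rw [Real.norm_eq_abs, Real.norm_eq_abs, abs_of_pos (Real.exp_pos _),
        abs_of_nonneg (Real.rpow_nonneg hy0 _)] at hy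
      linarith
    filter_upwards [e1.eventually e2, eventually_ge_atTop (1:ℝ)] with x hx hx1
    rw [← Real.rpow_mul (by linarith), mul_div_cancel₀ _ hδ.ne', Real.rpow_natCast] at hx
    exact hx
  have h8 : ∀ᶠ x : ℝ in atTop, 1 ≤ θ ^ (A + 2) * x := (tendsto_id.const_mul_atTop
    (by positivity : (0:ℝ) < θ ^ (A + 2))).eventually_ge_atTop 1
  have h10 : ∀ᶠ x : ℝ in atTop, e ≤ x ^ δ := (tendsto_rpow_atTop hδ).eventually_ge_atTop _
  have h11 : ∀ᶠ x : ℝ in atTop, x ≤ Real.exp (θ * x) := by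
    have e3 := Real.isLittleO_log_id_atTop.def hθ
    filter_upwards [e3, eventually_ge_atTop (1:ℝ)] with x hx hx1
    rw [Real.norm_eq_abs, abs_of_nonneg (Real.log_nonneg hx1), Real.norm_eq_abs] at hx
    simp only [id] at hx
    rw [abs_of_nonneg (by linarith)] at hx
    calc x = Real.exp (Real.log x) := (Real.exp_log (by linarith)).symm
      _ ≤ Real.exp (θ * x) := Real.exp_le_exp.mpr hx
  filter_upwards [h1, h2, h3, h4, h5, h6, h7, h8, h10, h11] with x g1 g2 g3 g4 g5 g6 g7 g8 g10 g11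
  refine ⟨g1, g2, g3, g4, g5, g6, g7, ?_, ?_, g10, g11⟩
  · calc x ^ A = x ^ A * 1 * 1 := by ring
      _ ≤ x ^ A * (θ ^ (A + 2) * x) * x := by gcongr
      _ = (θ * x) ^ (A + 2) := by ring
  · calc x = 1 * 1 * x := by ring
      _ ≤ (θ ^ (A + 2) * x) * x ^ A * x := by
        have := one_le_pow₀ g1 (n := A)
        gcongr
      _ = (θ * x) ^ (A + 2) := by ring

/-- size of the primorial -/
lemma primorial_le_rpow (ε : ℝ) (hε : 0 < ε) (H : ℕ) (hH : 1 ≤ H) :
    (primorial ⌊ε / 12 * Real.log H⌋₊ : ℝ) ≤ (H : ℝ) ^ (ε / 8) := by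
  have hlog : 0 ≤ Real.log (H : ℝ) := Real.log_natCast_nonneg _
  have hH0 : (0 : ℝ) < H := by exact_mod_cast hH
  have h1 : ((primorial ⌊ε / 12 * Real.log H⌋₊ : ℕ) : ℝ) ≤ (4 : ℝ) ^ ⌊ε / 12 * Real.log H⌋₊ := by
    exact_mod_cast primorial_le_four_pow _
  refine h1.trans ?_
  have h4 : (4 : ℝ) ≤ Real.exp (1.4) := by
    rw [← Real.log_le_iff_le_exp (by norm_num)]
    have : Real.log 4 = 2 * Real.log 2 := by
      rw [show (4 : ℝ) = 2 ^ 2 by norm_num, Real.log_pow]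
      push_cast
      ring
    rw [this]
    have := Real.log_two_lt_d9
    linarith
  calc (4 : ℝ) ^ ⌊ε / 12 * Real.log H⌋₊ ≤ (Real.exp (1.4)) ^ ⌊ε / 12 * Real.log H⌋₊ := by gcongr
    _ = Real.exp (⌊ε / 12 * Real.log H⌋₊ * 1.4) := by rw [← Real.exp_nat_mul]
    _ ≤ Real.exp (Real.log H * (ε / 8)) := by
        apply Real.exp_le_exp.mpr
        have h2 : ((⌊ε / 12 * Real.log H⌋₊ : ℕ) : ℝ) ≤ ε / 12 * Real.log H :=
          Nat.floor_le (by positivity)
        have h3 : 0 ≤ ε * Real.log H := by positivity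
        nlinarith
    _ = (H : ℝ) ^ (ε / 8) := by rw [Real.rpow_def_of_pos hH0]

open Classical in
/-- the windows theorem: one residue class modulo the product of the small primes in which few shifts are
left is enough -/
theorem win_main (δ ε θ : ℝ) (A : ℕ) (hδ : 0 < δ) (hε : 0 < ε) (hε1 : ε ≤ 1) (hθ : 0 < θ)
    (hθ1 : θ ≤ 1) :
    ∃ c : ℝ, 0 < c ∧ ∃ N₀ : ℕ, ∀ N : ℕ, N₀ ≤ N → ∀ H : ℕ, Real.exp (Real.log N ^ δ) ≤ H → H ≤ N →
    ∀ M r : ℕ, ∀ S : Finset ℕ, (∀ s ∈ S, (s:ℝ) ≤ Real.log N ^ A) →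
      ((S.filter (fun s => Nat.Coprime (r + s) (primorial ⌊ε / 12 * Real.log H⌋₊))).card : ℝ) ≤
        c * Real.log N →
      (((Ioc M (M + N)).filter (fun n => ¬ ∃ m, n < m ∧ 2 * m ≤ 2 * n + H ∧
         m ≡ r [MOD primorial ⌊ε / 12 * Real.log H⌋₊] ∧ Gd S N θ m)).card : ℝ) ≤
        N * (H : ℝ) ^ ε / H := by
  obtain ⟨c, hc, C₁, hC₁, L₀, hone⟩ := one_class (δ / 2) ((A + 2 : ℕ) : ℝ) (by positivity)
    (by push_cast; linarith [(Nat.cast_nonneg A : (0:ℝ) ≤ A)])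
  set ε' : ℝ := ε / 4006 with hε'
  have hε'0 : 0 < ε' := by positivity
  obtain ⟨x₀, hx₀⟩ := Filter.eventually_atTop.mp (ev_x δ
    (max (- Real.log ε') (4 / ε * Real.log 120)) θ C₁ L₀ A hδ hθ)
  obtain ⟨N₀, hN₀⟩ := Filter.eventually_atTop.mp (tendsto_logN.eventually_ge_atTop x₀)
  refine ⟨c * θ, by positivity, N₀, fun N hN H hH1 hH2 M r S hS1 hS2 => ?_⟩
  set x : ℝ := Real.log N with hx
  obtain ⟨g1, g2, g3, g4, g5, g6, g7, g8, g9, g10, g11⟩ := hx₀ x (hN₀ N hN)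
  have hx0 : 0 < x := by linarith
  have hN0 : (0 : ℝ) < N := by
    rcases Nat.eq_zero_or_pos N with h | h
    · rw [h] at hx
      simp at hx
      linarith
    · exact_mod_cast h
  have hNx : (N : ℝ) = Real.exp x := (Real.exp_log hN0).symm
  set ℓ : ℝ := Real.log x with hℓ
  set l : ℝ := Real.log (θ * x) with hl
  have hlℓ : l ≤ ℓ := by
    apply Real.log_le_log (by positivity)
    nlinarith
  have hl0 : 0 < l := by linarith
  have hHR0 : (0 : ℝ) < H := lt_of_lt_of_le (Real.exp_pos _) hH1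
  have hH0 : 0 < H := by exact_mod_cast hHR0
  have hlogH : x ^ δ ≤ Real.log H := by
    rw [← Real.log_exp (x ^ δ)]
    exact Real.log_le_log (Real.exp_pos _) hH1
  have hxδ0 : 0 < x ^ δ := Real.rpow_pos_of_pos hx0 _
  have hlogH0 : 0 < Real.log (H : ℝ) := lt_of_lt_of_le hxδ0 hlogH
  have hlogHx : Real.log H ≤ x := Real.log_le_log hHR0 (by exact_mod_cast hH2)
  have hH1R : (1 : ℝ) ≤ H := by exact_mod_cast hH0
  -- number of scales
  set T : ℝ := ε' * Real.log H / l ^ 3 with hT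
  have hT0 : 0 < T := by positivity
  have hlogT : δ / 2 * l ≤ Real.log T := by
    rw [hT, Real.log_div (by positivity) (by positivity), Real.log_mul hε'0.ne' hlogH0.ne',
      Real.log_pow]
    have e1 : δ * ℓ ≤ Real.log (Real.log H) := by
      have : Real.log (x ^ δ) = δ * ℓ := Real.log_rpow hx0 _
      rw [← this]
      exact Real.log_le_log hxδ0 hlogH
    have e2 : Real.log l ≤ Real.log ℓ := Real.log_le_log hl0 hlℓ
    have e3 := le_max_left (- Real.log ε') (4 / ε * Real.log 120)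
    have e4 : δ / 2 * l ≤ δ / 2 * ℓ := mul_le_mul_of_nonneg_left hlℓ (by positivity)
    push_cast
    linarith
  have hT1 : 1 ≤ T := by
    rw [← Real.log_nonneg_iff hT0]
    exact le_trans (by positivity) hlogT
  have hfl : ⌊T⌋₊ ≠ 0 := by
    have : 1 ≤ ⌊T⌋₊ := Nat.le_floor (by simpa using hT1)
    omega
  set m : ℕ := Nat.log 2 ⌊T⌋₊ with hm
  have hm1 : (2:ℝ) ^ m ≤ T := by
    have e1 : 2 ^ m ≤ ⌊T⌋₊ := Nat.pow_log_le_self 2 hfl
    calc (2:ℝ) ^ m ≤ (⌊T⌋₊ : ℝ) := by exact_mod_cast e1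
      _ ≤ T := Nat.floor_le (by linarith)
  have hm2 : T < (2:ℝ) ^ (m + 1) := by
    have e1 : ⌊T⌋₊ < 2 ^ (m + 1) := Nat.lt_pow_succ_log_self (by norm_num) _
    have e2 : ⌊T⌋₊ + 1 ≤ 2 ^ (m + 1) := e1
    calc T < (⌊T⌋₊ : ℝ) + 1 := Nat.lt_floor_add_one T
      _ ≤ (2:ℝ) ^ (m + 1) := by exact_mod_cast e2
  have hm3 : δ / 2 * l ≤ m + 1 := by
    refine hlogT.trans ?_
    have e1 : Real.log T ≤ Real.log ((2:ℝ) ^ (m + 1)) := Real.log_le_log hT0 hm2.le
    rw [Real.log_pow] at e1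
    have e2 := Real.log_two_lt_d9
    push_cast at e1
    have e3 : (0:ℝ) ≤ (m:ℝ) + 1 := by positivity
    nlinarith
  have hm4 : (2:ℝ) ^ m * (C₁ * l ^ 2) ≤ θ * x := by
    calc (2:ℝ) ^ m * (C₁ * l ^ 2) ≤ T * (C₁ * l ^ 2) :=
          mul_le_mul_of_nonneg_right hm1 (by positivity)
      _ = ε' * Real.log H * (C₁ / l) := by rw [hT]; field_simp
      _ ≤ 1 * x * θ := by
          have e1 : C₁ / l ≤ θ := by
            rw [div_le_iff₀ hl0]
            rw [div_le_iff₀ hθ] at g5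
            linarith
          have e2 : ε' ≤ 1 := by
            rw [hε']
            linarith
          have e3 : 0 < C₁ / l := by positivity
          gcongr
      _ = θ * x := by ring
  obtain ⟨PP, hPP, hcls⟩ := hone (θ * x) g2 m hm3 hm4
  -- parameters
  set z0 : ℕ := ⌊ε / 12 * Real.log H⌋₊ with hz0
  set W : ℕ := primorial z0 with hW
  have hW0 : 0 < W := primorial_pos z0
  have hWR : (0 : ℝ) < W := by exact_mod_cast hW0
  have hWH : (W : ℝ) ≤ (H : ℝ) ^ (ε / 8) := primorial_le_rpow ε hε H hH0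
  have h120 : (120 : ℝ) ≤ (H : ℝ) ^ (ε / 4) := by
    rw [Real.rpow_def_of_pos hHR0, ← Real.log_le_iff_le_exp (by norm_num)]
    have e1 := le_max_right (- Real.log ε') (4 / ε * Real.log 120)
    have e2 : 4 / ε * Real.log 120 ≤ Real.log H := by linarith
    rw [div_mul_eq_mul_div, div_le_iff₀ hε] at e2
    linarith
  have hWH2 : (W : ℝ) * 8 ≤ H := by
    calc (W : ℝ) * 8 ≤ (H : ℝ) ^ (ε / 8) * (H : ℝ) ^ (ε / 4) := by
          gcongr
          linarith
      _ = (H : ℝ) ^ (ε / 8 + ε / 4) := by rw [Real.rpow_add hHR0]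
      _ ≤ (H : ℝ) ^ (1 : ℝ) := Real.rpow_le_rpow_of_exponent_le hH1R (by linarith)
      _ = H := Real.rpow_one _
  set Lm : ℕ := ⌊x ^ A⌋₊ with hLm
  have hLmx : (Lm : ℝ) ≤ x ^ A := Nat.floor_le (by positivity)
  have hSL : ∀ s ∈ S, s ≤ Lm := fun s hs => Nat.le_floor (hS1 s hs)
  have hLH : Lm * 2 ≤ H := by
    have : (Lm : ℝ) * 2 ≤ H := by linarith
    exact_mod_cast this
  set J : ℕ := H / (2 * W) - 1 with hJ
  have hdiv : 1 ≤ H / (2 * W) := by
    rw [Nat.one_le_div_iff (by omega)]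
    have : W * 8 ≤ H := by exact_mod_cast hWH2
    omega
  have hJs : J + 1 = H / (2 * W) := by omega
  have hJW : W * (J + 1) * 2 ≤ H := by
    have := Nat.div_mul_le_self H (2 * W)
    rw [← hJs] at this
    calc W * (J + 1) * 2 = (J + 1) * (2 * W) := by ring
      _ ≤ H := this
  have hJge : (H : ℝ) ≤ J * (4 * W) := by
    have h1 := Nat.lt_mul_div_succ H (show 0 < 2 * W by omega)
    rw [← hJs] at h1
    have h2 : (H : ℝ) < (2 * W) * (J + 1 + 1) := by exact_mod_cast h1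
    nlinarith
  have hJ0 : 0 < J := by
    rcases Nat.eq_zero_or_pos J with h | h
    · exfalso
      rw [h, Nat.cast_zero, zero_mul] at hJge
      linarith
    · exact h
  have hJR : (0 : ℝ) < J := by exact_mod_cast hJ0
  set b : ℕ := (r + Lm + M * (W - 1)) % W with hb
  have hbW : b < W := Nat.mod_lt _ hW0
  have hbr : M + b ≡ r + Lm [MOD W] := by
    have e1 : b ≡ r + Lm + M * (W - 1) [MOD W] := Nat.mod_modEq _ _
    have e2 : M + b ≡ M + (r + Lm + M * (W - 1)) [MOD W] := e1.add_left M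
    have e3 : M + (r + Lm + M * (W - 1)) = r + Lm + M * W := by
      have : M * (W - 1) + M = M * W := by
        rw [← Nat.mul_succ]
        congr 1
        omega
      omega
    rw [e3] at e2
    refine e2.trans ?_
    have e4 : r + Lm + M * W ≡ r + Lm + 0 [MOD W] :=
      Nat.ModEq.add_left _ ((Nat.modEq_zero_iff_dvd).mpr (dvd_mul_left _ _))
    exact e4
  have hBc : ((Bset S Lm z0 (M + b)).card : ℝ) ≤ c * (θ * x) := by
    refine le_trans ?_ (hS2.trans (le_of_eq (by ring)))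
    rw [Nat.cast_le]
    refine le_trans (Finset.card_le_card ?_) (Finset.card_image_le (f := fun s => Lm - s))
    intro a ha
    unfold Bset at ha
    rw [mem_filter, mem_image] at ha
    obtain ⟨⟨s, hs, rfl⟩, hcop⟩ := ha
    rw [mem_image]
    refine ⟨s, ?_, rfl⟩
    rw [mem_filter]
    refine ⟨hs, ?_⟩
    have hsL := hSL s hs
    obtain ⟨t, ht⟩ := (Nat.modEq_iff_dvd).mp hbr.symm
    have e1 : ((M + b : ℕ) : ℤ) - ((Lm - s : ℕ) : ℤ) = ((r + s : ℕ) : ℤ) + (W : ℤ) * t := by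
      rw [← ht, Nat.cast_sub hsL]
      push_cast
      ring
    rw [← Nat.isCoprime_iff_coprime]
    rw [e1] at hcop
    exact IsCoprime.add_mul_left_left_iff.mp hcop
  have hLmA : (Lm : ℝ) ≤ (θ * x) ^ (((A + 2 : ℕ) : ℝ)) := by
    rw [Real.rpow_natCast]
    linarith
  have hz0x : (z0 : ℝ) ≤ x := by
    calc (z0 : ℝ) ≤ ε / 12 * Real.log H := Nat.floor_le (by positivity)
      _ ≤ 1 * x := by
        have : ε / 12 ≤ 1 := by linarith
        gcongr
      _ = x := one_mul x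
  have hz0A : (z0 : ℝ) ≤ (θ * x) ^ (((A + 2 : ℕ) : ℝ)) := by
    rw [Real.rpow_natCast]
    linarith
  have hmain := hcls N H Lm z0 M b J S (by
      rw [hNx]
      apply Real.exp_le_exp.mpr
      nlinarith) hH2 hbW hJ0 hJW hLH hLmA hz0A hBc
  -- comparison of the sets
  have hcomp : (((Ioc M (M + N)).filter (fun n => ¬ ∃ m, n < m ∧ 2 * m ≤ 2 * n + H ∧
         m ≡ r [MOD W] ∧ Gd S N θ m)).card : ℝ) ≤
      (((Ioc 0 N).filter (fun n => ¬ ∃ j < J,
        CovP PP S Lm z0 (M + b) (eb Lm W b n + j))).card : ℝ) := by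
    rw [Nat.cast_le]
    refine Finset.card_le_card_of_injOn (fun n => n - M) ?_ ?_
    · intro n hn
      rw [mem_coe, mem_filter, mem_Ioc] at hn
      obtain ⟨⟨h1, h2⟩, h3⟩ := hn
      simp only [coe_filter, mem_Ioc, Set.mem_ofPred_eq]
      refine ⟨⟨by omega, by omega⟩, ?_⟩
      rintro ⟨j, hj, hcov⟩
      apply h3
      obtain ⟨k1, k2⟩ := eb_bounds (L := Lm) (n := n - M) hbW
      have hWm : W * (eb Lm W b (n - M) + j) = W * eb Lm W b (n - M) + W * j := by ring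
      have hWj : W * j + W ≤ W * J := by
        calc W * j + W = W * (j + 1) := by ring
          _ ≤ W * J := Nat.mul_le_mul_left _ hj
      have h30 : W * (J + 1) * 2 = W * J * 2 + W * 2 := by ring
      refine ⟨M + b + W * (eb Lm W b (n - M) + j) - Lm, by omega, by omega, ?_, ?_⟩
      · have e1 : M + b + W * (eb Lm W b (n - M) + j) - Lm + Lm ≡ r + Lm [MOD W] := by
          have e2 : M + b + W * (eb Lm W b (n - M) + j) - Lm + Lm =
              M + b + W * (eb Lm W b (n - M) + j) := by omega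
          rw [e2]
          refine Nat.ModEq.trans ?_ hbr
          have e4 : M + b + W * (eb Lm W b (n - M) + j) ≡ M + b + 0 [MOD W] :=
            Nat.ModEq.add_left _ ((Nat.modEq_zero_iff_dvd).mpr (dvd_mul_right _ _))
          exact e4
        exact Nat.ModEq.add_right_cancel' Lm e1
      · intro s hs
        obtain ⟨p, hp1, hp2, hp3⟩ := covP_good (P := PP) (fun p hp => ⟨(hPP p hp).1, by
          have := (hPP p hp).2.1
          exact_mod_cast hz0A.trans_lt this⟩) hSL (by rw [← hW]; omega) hcov s hs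
        refine ⟨p, hp1, ?_, hp3⟩
        have hNθ : (N : ℝ) ^ θ = Real.exp (θ * x) := by
          rw [Real.rpow_def_of_pos hN0, ← hx]
          congr 1
          ring
        rw [hNθ]
        rcases hp2 with h | h
        · have : (p : ℝ) ≤ z0 := by exact_mod_cast h
          linarith
        · refine ((hPP p h).2.2).trans (Real.exp_le_exp.mpr ?_)
          have : 0 < θ * x := by positivity
          linarith
    · intro n hn n' hn' h
      rw [mem_coe, mem_filter, mem_Ioc] at hn hn'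
      simp only at h
      omega
  refine hcomp.trans (hmain.trans ?_)
  -- the bound
  have hexp : Real.exp (2003 * l ^ 3 * 2 ^ m) ≤ (H : ℝ) ^ (ε / 2) := by
    rw [Real.rpow_def_of_pos hHR0]
    apply Real.exp_le_exp.mpr
    calc 2003 * l ^ 3 * 2 ^ m ≤ 2003 * l ^ 3 * T := by gcongr
      _ = Real.log H * (ε / 2) := by
        rw [hT, hε']
        field_simp
        norm_num
  have hWJ : (W : ℝ) / J ≤ 4 * (H : ℝ) ^ (ε / 4) / H := by
    rw [div_le_div_iff₀ hJR hHR0]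
    have h1 : (W : ℝ) * W ≤ (H : ℝ) ^ (ε / 4) := by
      calc (W : ℝ) * W ≤ (H : ℝ) ^ (ε / 8) * (H : ℝ) ^ (ε / 8) := by gcongr
        _ = (H : ℝ) ^ (ε / 4) := by
          rw [← Real.rpow_add hHR0]
          congr 1
          ring
    calc (W : ℝ) * H ≤ W * (J * (4 * W)) := by gcongr
      _ = 4 * (W * W) * J := by ring
      _ ≤ 4 * (H : ℝ) ^ (ε / 4) * J := by gcongr
  calc (W : ℝ) * (30 * Real.exp (2003 * l ^ 3 * 2 ^ m)) * N / J
      = 30 * N * (W / J) * Real.exp (2003 * l ^ 3 * 2 ^ m) := by ring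
    _ ≤ 30 * N * (4 * (H : ℝ) ^ (ε / 4) / H) * (H : ℝ) ^ (ε / 2) := by gcongr
    _ = N * 120 * ((H : ℝ) ^ (ε / 4) * (H : ℝ) ^ (ε / 2)) / H := by ring
    _ ≤ N * (H : ℝ) ^ (ε / 4) * ((H : ℝ) ^ (ε / 4) * (H : ℝ) ^ (ε / 2)) / H := by gcongr
    _ = N * (H : ℝ) ^ ε / H := by
      rw [← Real.rpow_add hHR0, mul_assoc, ← Real.rpow_add hHR0]
      congr 3
      ring

end Pool.Agent.J4H30.SW
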