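import Pool.Agent.H256R2.SC.J

/-!
Project SW, part 1: the covering sieve for weighted sets.  Coefficients of the functions of the sieve in
the elementary events, counted by the set of the primes.
-/

set_option autoImplicit false
set_option linter.unusedSectionVars false

namespace Pool.Agent.J4H30.SW

open Finset Pool.Agent.H256R2.SC

variable {n : ℕ} {κ : Type} [Fintype κ] [DecidableEq κ]

/-- `F` is a combination of elementary events of size at most `Q`; the coefficients of the events with
primes in `T` have sum at most `c * K ^ |T|` -/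
def LK (p : Fin n → ℝ) (Q K c : ℝ) (F : Col n κ → ℝ) : Prop :=
  ∃ f : Col n κ → ℝ, (∀ x, F x = ∑ D, f D * ind D x) ∧
    (∀ T : Finset (Fin n), ∑ D with supp D ⊆ T, |f D| ≤ c * K ^ T.card) ∧
    ∀ D, f D ≠ 0 → qq p D ≤ Q

lemma supp_un (D D' : Col n κ) : supp (un D D') = supp D ∪ supp D' := by
  ext i
  rw [mem_union, mem_supp, mem_supp, mem_supp]
  unfold un
  cases h : D i with
  | none => simp
  | some k => simp

lemma LK_mono {p : Fin n → ℝ} {Q K c Q' K' c' : ℝ} {F : Col n κ → ℝ} (hQ : Q ≤ Q') (hK0 : 0 ≤ K)
    (hK : K ≤ K') (hc0 : 0 ≤ c') (hc : c ≤ c') (hF : LK p Q K c F) : LK p Q' K' c' F := by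
  obtain ⟨f, h1, h2, h3⟩ := hF
  refine ⟨f, h1, fun T => (h2 T).trans ?_, fun D hD => (h3 D hD).trans hQ⟩
  have h4 : K ^ T.card ≤ K' ^ T.card := pow_le_pow_left₀ hK0 hK _
  have h5 : (0 : ℝ) ≤ K ^ T.card := pow_nonneg hK0 _
  calc c * K ^ T.card ≤ c' * K ^ T.card := mul_le_mul_of_nonneg_right hc h5
    _ ≤ c' * K' ^ T.card := mul_le_mul_of_nonneg_left h4 hc0

lemma LK_one (p : Fin n → ℝ) : LK p 1 1 1 (fun _ : Col n κ => (1 : ℝ)) := by
  refine ⟨fun D => if D = (fun _ => none) then 1 else 0, fun x => ?_, fun T => ?_, fun D hD => ?_⟩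
  · rw [Finset.sum_eq_single (fun _ => none : Col n κ)]
    · simp [ind]
    · intro D _ hD
      simp [hD]
    · intro h
      exact absurd (mem_univ _) h
  · have h1 : ∑ D : Col n κ with supp D ⊆ T, |(if D = (fun _ => none) then (1 : ℝ) else 0)| ≤
        ∑ D : Col n κ, |(if D = (fun _ => none) then (1 : ℝ) else 0)| :=
      Finset.sum_le_sum_of_subset_of_nonneg (Finset.filter_subset _ _) (fun _ _ _ => abs_nonneg _)
    refine h1.trans ?_
    rw [Finset.sum_eq_single (fun _ => none : Col n κ)]
    · simp
    · intro D _ hD
      simp [hD]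
    · intro h
      exact absurd (mem_univ _) h
  · have h : D = (fun _ => none) := by
      by_contra h
      exact hD (if_neg h)
    subst h
    rw [qq_none]

lemma LK_sub {p : Fin n → ℝ} {Q K c c' : ℝ} {F G : Col n κ → ℝ} (hF : LK p Q K c F)
    (hG : LK p Q K c' G) : LK p Q K (c + c') (fun x => F x - G x) := by
  obtain ⟨f, h1, h2, h3⟩ := hF
  obtain ⟨f', h1', h2', h3'⟩ := hG
  refine ⟨fun D => f D - f' D, fun x => ?_, fun T => ?_, fun D hD => ?_⟩
  · change F x - G x = _
    rw [h1, h1', ← Finset.sum_sub_distrib]
    exact Finset.sum_congr rfl fun D _ => by ring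
  · rw [add_mul]
    refine le_trans ?_ (add_le_add (h2 T) (h2' T))
    rw [← Finset.sum_add_distrib]
    exact Finset.sum_le_sum fun D _ => abs_sub _ _
  · by_cases h : f D = 0
    · exact h3' D fun h' => hD (by simp only [h, h', sub_zero])
    · exact h3 D h

lemma LK_add {p : Fin n → ℝ} {Q K c c' : ℝ} {F G : Col n κ → ℝ} (hF : LK p Q K c F)
    (hG : LK p Q K c' G) : LK p Q K (c + c') (fun x => F x + G x) := by
  obtain ⟨f, h1, h2, h3⟩ := hF
  obtain ⟨f', h1', h2', h3'⟩ := hG
  refine ⟨fun D => f D + f' D, fun x => ?_, fun T => ?_, fun D hD => ?_⟩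
  · change F x + G x = _
    rw [h1, h1', ← Finset.sum_add_distrib]
    exact Finset.sum_congr rfl fun D _ => by ring
  · rw [add_mul]
    refine le_trans ?_ (add_le_add (h2 T) (h2' T))
    rw [← Finset.sum_add_distrib]
    exact Finset.sum_le_sum fun D _ => abs_add_le _ _
  · by_cases h : f D = 0
    · exact h3' D fun h' => hD (by simp only [h, h', add_zero])
    · exact h3 D h

lemma LK_zero (p : Fin n → ℝ) (Q K : ℝ) : LK p Q K 0 (fun _ : Col n κ => 0) := by
  refine ⟨fun _ => 0, fun x => by simp, by simp, fun D hD => absurd rfl hD⟩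

lemma LK_sum {p : Fin n → ℝ} {Q K : ℝ} {ι : Type} (S : Finset ι) (c : ι → ℝ)
    (F : ι → Col n κ → ℝ) (hF : ∀ j ∈ S, LK p Q K (c j) (F j)) :
    LK p Q K (∑ j ∈ S, c j) (fun x => ∑ j ∈ S, F j x) := by
  classical
  induction S using Finset.induction_on with
  | empty => simpa using LK_zero (κ := κ) p Q K
  | insert a S ha ih =>
    have h1 := hF a (Finset.mem_insert_self a S)
    have h2 := ih fun j hj => hF j (Finset.mem_insert_of_mem hj)
    have h3 := LK_add h1 h2
    rw [Finset.sum_insert ha]
    have h4 : (fun x => ∑ j ∈ insert a S, F j x) = fun x => F a x + ∑ j ∈ S, F j x := by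
      funext x
      rw [Finset.sum_insert ha]
    rw [h4]
    exact h3

lemma LK_mul {p : Fin n → ℝ} (hp : ∀ i, 1 ≤ p i) {Q K c Q' K' c' : ℝ} {F G : Col n κ → ℝ}
    (hF : LK p Q K c F) (hG : LK p Q' K' c' G) :
    LK p (Q * Q') (K * K') (c * c') (fun x => F x * G x) := by
  classical
  obtain ⟨f, h1, h2, h3⟩ := hF
  obtain ⟨f', h1', h2', h3'⟩ := hG
  refine ⟨fun E => ∑ P : Col n κ × Col n κ, if Cmp P.1 P.2 ∧ un P.1 P.2 = E then
    f P.1 * f' P.2 else 0, fun x => ?_, fun T => ?_, fun E hE => ?_⟩
  · have e1 : ∑ E : Col n κ, (∑ P : Col n κ × Col n κ, if Cmp P.1 P.2 ∧ un P.1 P.2 = E then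
        f P.1 * f' P.2 else 0) * ind E x =
        ∑ P : Col n κ × Col n κ, ∑ E : Col n κ, (if Cmp P.1 P.2 ∧ un P.1 P.2 = E then
        f P.1 * f' P.2 else 0) * ind E x := by
      simp_rw [Finset.sum_mul]
      exact Finset.sum_comm
    rw [e1]
    change F x * G x = _
    rw [h1, h1', Finset.sum_mul_sum, ← Finset.univ_product_univ, Finset.sum_product]
    refine Finset.sum_congr rfl fun D _ => Finset.sum_congr rfl fun D' _ => ?_
    have e2 : f D * ind D x * (f' D' * ind D' x) = f D * f' D' * (ind D x * ind D' x) := by ring
    rw [e2, ind_mul]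
    by_cases hc : Cmp D D'
    · rw [if_pos hc, Finset.sum_eq_single (un D D')]
      · rw [if_pos ⟨hc, rfl⟩]
      · intro E _ hE
        rw [if_neg fun h => hE h.2.symm, zero_mul]
      · intro h
        exact absurd (mem_univ _) h
    · rw [if_neg hc, mul_zero]
      symm
      apply Finset.sum_eq_zero
      intro E _
      rw [if_neg fun h => hc h.1, zero_mul]
  · have e1 : ∀ E : Col n κ, |∑ P : Col n κ × Col n κ, if Cmp P.1 P.2 ∧ un P.1 P.2 = E then
        f P.1 * f' P.2 else 0| ≤ ∑ P : Col n κ × Col n κ, if un P.1 P.2 = E then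
        |f P.1| * |f' P.2| else 0 := by
      intro E
      refine (Finset.abs_sum_le_sum_abs _ _).trans (Finset.sum_le_sum fun P _ => ?_)
      by_cases h : un P.1 P.2 = E
      · by_cases hc : Cmp P.1 P.2
        · rw [if_pos ⟨hc, h⟩, if_pos h, abs_mul]
        · rw [if_neg fun h' => hc h'.1, if_pos h, abs_zero]
          positivity
      · rw [if_neg fun h' => h h'.2, if_neg h, abs_zero]
    refine (Finset.sum_le_sum fun E _ => e1 E).trans ?_
    rw [Finset.sum_comm]
    have e2 : ∀ P : Col n κ × Col n κ, (∑ E : Col n κ with supp E ⊆ T, if un P.1 P.2 = E then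
        |f P.1| * |f' P.2| else 0) =
        (if supp P.1 ⊆ T then |f P.1| else 0) * (if supp P.2 ⊆ T then |f' P.2| else 0) := by
      intro P
      rw [Finset.sum_ite_eq]
      have e3 : un P.1 P.2 ∈ univ.filter (fun E : Col n κ => supp E ⊆ T) ↔
          supp P.1 ⊆ T ∧ supp P.2 ⊆ T := by
        rw [mem_filter, supp_un, Finset.union_subset_iff]
        simp
      by_cases h4 : supp P.1 ⊆ T
      · by_cases h5 : supp P.2 ⊆ T
        · rw [if_pos (e3.mpr ⟨h4, h5⟩), if_pos h4, if_pos h5]
        · rw [if_neg (fun h => h5 (e3.mp h).2), if_neg h5, mul_zero]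
      · rw [if_neg (fun h => h4 (e3.mp h).1), if_neg h4, zero_mul]
    simp_rw [e2]
    rw [← Finset.univ_product_univ, Finset.sum_product]
    change ∑ D, ∑ D', (if supp D ⊆ T then |f D| else 0) * (if supp D' ⊆ T then |f' D'| else 0) ≤ _
    rw [← Finset.sum_mul_sum, ← Finset.sum_filter, ← Finset.sum_filter, mul_pow]
    have e4 : 0 ≤ ∑ D with supp D ⊆ T, |f D| := Finset.sum_nonneg fun _ _ => abs_nonneg _
    have e5 : 0 ≤ ∑ D with supp D ⊆ T, |f' D| := Finset.sum_nonneg fun _ _ => abs_nonneg _
    calc (∑ D with supp D ⊆ T, |f D|) * (∑ D with supp D ⊆ T, |f' D|) ≤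
          (c * K ^ T.card) * (c' * K' ^ T.card) := mul_le_mul (h2 T) (h2' T) e5 (e4.trans (h2 T))
      _ = c * c' * (K ^ T.card * K' ^ T.card) := by ring
  · obtain ⟨P, _, hP⟩ := Finset.exists_ne_zero_of_sum_ne_zero hE
    have hP1 : Cmp P.1 P.2 ∧ un P.1 P.2 = E := by
      by_contra h
      exact hP (if_neg h)
    rw [if_pos hP1] at hP
    have a1 := h3 P.1 (left_ne_zero_of_mul hP)
    have a2 := h3' P.2 (right_ne_zero_of_mul hP)
    rw [← hP1.2]
    refine (qq_un hp _ _).trans ?_
    have b1 := one_le_qq hp P.1
    have b2 := one_le_qq hp P.2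
    exact mul_le_mul a1 a2 (by linarith) (by linarith)

lemma LK_SS (p : Fin n → ℝ) (hp : ∀ i, 1 ≤ p i) (z : ℝ) (hz : ∀ i, p i ≤ z) (hz1 : 1 ≤ z)
    (J : ℕ) (k : κ) : LK p (z ^ J) 2 1 (SS J k : Col n κ → ℝ) := by
  classical
  refine ⟨fun E => ∑ s : Finset (Fin n) with s.card ≤ J,
    (-1 : ℝ) ^ s.card * (if onS k s = E then 1 else 0), ?_, ?_, ?_⟩
  · intro x
    unfold SS
    simp_rw [Finset.sum_mul]
    rw [Finset.sum_comm]
    apply Finset.sum_congr rfl
    intro s _
    rw [Finset.sum_eq_single (onS k s)]
    · rw [ind_onS]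
      simp
    · intro E _ hE
      rw [if_neg (Ne.symm hE)]
      simp
    · intro h
      exact absurd (Finset.mem_univ _) h
  · intro T
    calc ∑ E : Col n κ with supp E ⊆ T, |∑ s : Finset (Fin n) with s.card ≤ J,
          (-1 : ℝ) ^ s.card * (if onS k s = E then 1 else 0)|
        ≤ ∑ E : Col n κ with supp E ⊆ T, ∑ s : Finset (Fin n) with s.card ≤ J,
          (if onS k s = E then (1 : ℝ) else 0) := by
          apply Finset.sum_le_sum
          intro E _
          refine (Finset.abs_sum_le_sum_abs _ _).trans (le_of_eq ?_)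
          apply Finset.sum_congr rfl
          intro s _
          rw [abs_mul, abs_pow, abs_neg, abs_one, one_pow, one_mul]
          split_ifs <;> simp
      _ = ∑ s : Finset (Fin n) with s.card ≤ J, ∑ E : Col n κ with supp E ⊆ T,
          (if onS k s = E then (1 : ℝ) else 0) := Finset.sum_comm
      _ ≤ ∑ s : Finset (Fin n) with s.card ≤ J, (if s ⊆ T then (1 : ℝ) else 0) := by
          apply Finset.sum_le_sum
          intro s _
          rw [Finset.sum_ite_eq]
          have h1 : supp (onS k s : Col n κ) = s := by
            ext i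
            rw [mem_supp]
            unfold onS
            by_cases hi : i ∈ s
            · simp [hi]
            · simp [hi]
          by_cases hs : s ⊆ T
          · rw [if_pos (mem_filter.mpr ⟨mem_univ _, by rw [h1]; exact hs⟩), if_pos hs]
          · rw [if_neg (fun h => hs (by rw [← h1]; exact (mem_filter.mp h).2)), if_neg hs]
      _ ≤ ∑ s : Finset (Fin n), (if s ⊆ T then (1 : ℝ) else 0) := by
          refine Finset.sum_le_sum_of_subset_of_nonneg (Finset.filter_subset _ _) ?_
          intro s _ _
          split_ifs <;> norm_num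
      _ = 1 * 2 ^ T.card := by
          rw [← Finset.sum_filter, Finset.sum_const, nsmul_eq_mul, mul_one]
          have h1 : univ.filter (fun s : Finset (Fin n) => s ⊆ T) = T.powerset := by
            ext s
            simp
          rw [h1, Finset.card_powerset]
          push_cast
          ring
  · intro E hE
    have h1 : ∃ s ∈ (univ.filter (fun s : Finset (Fin n) => s.card ≤ J)),
        (-1 : ℝ) ^ s.card * (if onS k s = E then 1 else 0) ≠ 0 := by
      by_contra h
      push Not at h
      exact hE (Finset.sum_eq_zero h)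
    obtain ⟨s, hs1, hs2⟩ := h1
    have hs3 : onS k s = E := by
      by_contra h
      rw [if_neg h] at hs2
      simp at hs2
    simp only [mem_filter, mem_univ, true_and] at hs1
    rw [← hs3]
    have h2 : qq p (onS k s) = ∏ i ∈ s, p i := by
      unfold qq
      rw [prod_nu1]
      congr 1
      ext i
      rw [mem_supp]
      unfold onS
      by_cases hi : i ∈ s
      · simp [hi]
      · simp [hi]
    rw [h2]
    calc ∏ i ∈ s, p i ≤ ∏ i ∈ s, z := by
          apply Finset.prod_le_prod
          · intro i _
            exact le_trans zero_le_one (hp i)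
          · intro i _
            exact hz i
      _ = z ^ s.card := by rw [Finset.prod_const]
      _ ≤ z ^ J := pow_le_pow_right₀ hz1 hs1

/-- the coefficients of `VV` -/
lemma LK_VV (p g : Fin n → ℝ) (hp : ∀ i, 1 ≤ p i) (hg0 : ∀ i, 0 ≤ g i) (hg1 : ∀ i, g i ≤ 1)
    (y : Col n κ → ℝ) (hy : ∀ D, |y D| ≤ 1) (Q : ℝ) (hQ : ∀ D, y D ≠ 0 → qq p D ≤ Q)
    (M₀ : ℕ) (hM : ∀ D, y D ≠ 0 → (supp D).card ≤ M₀) (hκ : 1 ≤ Fintype.card κ) :
    LK p Q 4 ((Fintype.card κ : ℝ) ^ M₀ * Real.exp (∑ i, g i)) (VV g y) := by
  classical
  have hκR : (1 : ℝ) ≤ Fintype.card κ := by exact_mod_cast hκ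
  refine ⟨fun E => ∑ D, y D * ∏ i, cf (g i) (D i) (E i), ?_, ?_, ?_⟩
  · intro x
    unfold VV
    simp_rw [psi_eq, Finset.mul_sum, Finset.sum_mul]
    rw [Finset.sum_comm]
    apply Finset.sum_congr rfl
    intro E _
    apply Finset.sum_congr rfl
    intro D _
    ring
  · intro T
    -- the sum over the events
    have hE : ∀ D : Col n κ, ∑ E : Col n κ with supp E ⊆ T, |∏ i, cf (g i) (D i) (E i)| ≤
        2 ^ T.card * ∏ i ∈ supp D \ T, g i := by
      intro D
      have h1 : ∑ E : Col n κ with supp E ⊆ T, |∏ i, cf (g i) (D i) (E i)| ≤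
          ∑ E : Col n κ, ∏ i, (|cf (g i) (D i) (E i)| *
            (if i ∈ T then 1 else if E i = none then 1 else 0)) := by
        rw [Finset.sum_filter]
        refine Finset.sum_le_sum fun E _ => ?_
        rw [Finset.prod_mul_distrib, Finset.abs_prod]
        by_cases hs : supp E ⊆ T
        · rw [if_pos hs]
          have h2 : ∏ i, (if i ∈ T then (1 : ℝ) else if E i = none then 1 else 0) = 1 := by
            refine Finset.prod_eq_one fun i _ => ?_
            by_cases hi : i ∈ T
            · rw [if_pos hi]
            · have h3 : E i = none := by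
                by_contra h4
                exact hi (hs (mem_supp.mpr h4))
              rw [if_neg hi, if_pos h3]
          rw [h2, mul_one]
        · rw [if_neg hs]
          refine mul_nonneg (Finset.prod_nonneg fun _ _ => abs_nonneg _)
            (Finset.prod_nonneg fun i _ => ?_)
          split_ifs <;> norm_num
      refine h1.trans ?_
      have h2 : ∑ E : Col n κ, ∏ i, (|cf (g i) (D i) (E i)| *
            (if i ∈ T then 1 else if E i = none then 1 else 0)) =
          ∏ i, ∑ b : Option κ, (|cf (g i) (D i) b| *
            (if i ∈ T then 1 else if b = none then 1 else 0)) := by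
        rw [Finset.prod_univ_sum, Fintype.piFinset_univ]
      rw [h2]
      have h3 : ∀ i, ∑ b : Option κ, (|cf (g i) (D i) b| *
            (if i ∈ T then 1 else if b = none then 1 else 0)) ≤
          (if i ∈ T then 2 else 1) * (if i ∈ supp D \ T then g i else 1) := by
        intro i
        by_cases hi : i ∈ T
        · have h4 : i ∉ supp D \ T := fun h => (mem_sdiff.mp h).2 hi
          simp only [if_pos hi, if_neg h4, mul_one]
          refine (sum_abs_cf (g i) (hg0 i) (hg1 i) (D i)).trans ?_
          split_ifs <;> norm_num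
        · simp only [if_neg hi, one_mul]
          rw [Finset.sum_eq_single (none : Option κ)]
          · cases hD : D i with
            | none =>
              have h4 : i ∉ supp D \ T := by
                intro h
                exact (mem_supp.mp (mem_sdiff.mp h).1) hD
              rw [if_neg h4]
              simp [cf]
            | some k =>
              have h4 : i ∈ supp D \ T := by
                rw [mem_sdiff, mem_supp, hD]
                exact ⟨by simp, hi⟩
              rw [if_pos h4]
              simp [cf, abs_of_nonneg (hg0 i)]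
          · intro b _ hb
            rw [if_neg hb, mul_zero]
          · intro h
            exact absurd (mem_univ _) h
      calc ∏ i, ∑ b : Option κ, (|cf (g i) (D i) b| *
            (if i ∈ T then 1 else if b = none then 1 else 0)) ≤
            ∏ i, ((if i ∈ T then (2 : ℝ) else 1) * (if i ∈ supp D \ T then g i else 1)) := by
              refine Finset.prod_le_prod (fun i _ => ?_) fun i _ => h3 i
              refine Finset.sum_nonneg fun b _ => mul_nonneg (abs_nonneg _) ?_
              split_ifs <;> norm_num
        _ = 2 ^ T.card * ∏ i ∈ supp D \ T, g i := by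
              rw [Finset.prod_mul_distrib, Finset.prod_ite_mem, Finset.prod_ite_mem]
              simp
    -- the sum over `D`
    calc ∑ E : Col n κ with supp E ⊆ T, |∑ D, y D * ∏ i, cf (g i) (D i) (E i)|
        ≤ ∑ E : Col n κ with supp E ⊆ T, ∑ D : Col n κ, |y D| * |∏ i, cf (g i) (D i) (E i)| := by
          apply Finset.sum_le_sum
          intro E _
          refine (Finset.abs_sum_le_sum_abs _ _).trans (le_of_eq ?_)
          apply Finset.sum_congr rfl
          intro D _
          rw [abs_mul]
      _ = ∑ D : Col n κ, |y D| * ∑ E : Col n κ with supp E ⊆ T, |∏ i, cf (g i) (D i) (E i)| := by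
          rw [Finset.sum_comm]
          apply Finset.sum_congr rfl
          intro D _
          rw [Finset.mul_sum]
      _ ≤ ∑ D : Col n κ, (if (supp D).card ≤ M₀ then 2 ^ T.card * ∏ i ∈ supp D \ T, g i else 0) := by
          apply Finset.sum_le_sum
          intro D _
          have h0 : 0 ≤ ∑ E : Col n κ with supp E ⊆ T, |∏ i, cf (g i) (D i) (E i)| :=
            Finset.sum_nonneg (fun E _ => abs_nonneg _)
          split_ifs with hD
          · calc |y D| * ∑ E : Col n κ with supp E ⊆ T, |∏ i, cf (g i) (D i) (E i)|
                ≤ 1 * ∑ E : Col n κ with supp E ⊆ T, |∏ i, cf (g i) (D i) (E i)| :=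
                  mul_le_mul_of_nonneg_right (hy D) h0
              _ ≤ _ := by rw [one_mul]; exact hE D
          · have h2 : y D = 0 := by
              by_contra h3
              exact hD (hM D h3)
            rw [h2]
            simp
      _ = ∑ U : Finset (Fin n), ∑ D : Col n κ with supp D = U,
            (if (supp D).card ≤ M₀ then 2 ^ T.card * ∏ i ∈ supp D \ T, g i else 0) := by
          rw [Finset.sum_fiberwise]
      _ ≤ ∑ U : Finset (Fin n), (Fintype.card κ : ℝ) ^ M₀ * (2 ^ T.card * ∏ i ∈ U \ T, g i) := by
          refine Finset.sum_le_sum fun U _ => ?_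
          have h1 : ∀ D ∈ univ.filter (fun D : Col n κ => supp D = U),
              (if (supp D).card ≤ M₀ then 2 ^ T.card * ∏ i ∈ supp D \ T, g i else 0) =
              (if U.card ≤ M₀ then 2 ^ T.card * ∏ i ∈ U \ T, g i else 0) := by
            intro D hD
            rw [(mem_filter.mp hD).2]
          rw [Finset.sum_congr rfl h1, Finset.sum_const, nsmul_eq_mul]
          have hg : (0 : ℝ) ≤ 2 ^ T.card * ∏ i ∈ U \ T, g i :=
            mul_nonneg (by positivity) (Finset.prod_nonneg fun i _ => hg0 i)
          by_cases hU : U.card ≤ M₀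
          · rw [if_pos hU]
            refine mul_le_mul_of_nonneg_right ?_ hg
            refine le_trans ?_ (pow_le_pow_right₀ hκR hU)
            have h2 : (univ.filter (fun D : Col n κ => supp D = U)).card ≤
                (Fintype.card κ) ^ U.card := by
              have h3 : (univ.filter (fun D : Col n κ => supp D = U)).card ≤
                  (Finset.univ : Finset (U → κ)).card := by
                refine Finset.card_le_card_of_injOn
                  (fun D => fun i : U => (D i).getD (Classical.choice
                    (Fintype.card_pos_iff.mp (by omega)))) (fun _ _ => mem_coe.mpr (mem_univ _)) ?_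
                intro D hD D' hD' h
                rw [mem_coe, mem_filter] at hD hD'
                funext i
                by_cases hi : i ∈ U
                · have h4 := congrFun h ⟨i, hi⟩
                  simp only at h4
                  have h5 : D i ≠ none := mem_supp.mp (by rw [hD.2]; exact hi)
                  have h6 : D' i ≠ none := mem_supp.mp (by rw [hD'.2]; exact hi)
                  obtain ⟨k, hk⟩ := Option.ne_none_iff_exists'.mp h5
                  obtain ⟨k', hk'⟩ := Option.ne_none_iff_exists'.mp h6
                  rw [hk, hk'] at h4 ⊢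
                  simpa using h4
                · have h5 : D i = none := by
                    by_contra h7
                    exact hi (by rw [← hD.2]; exact mem_supp.mpr h7)
                  have h6 : D' i = none := by
                    by_contra h7
                    exact hi (by rw [← hD'.2]; exact mem_supp.mpr h7)
                  rw [h5, h6]
              rw [Finset.card_univ, Fintype.card_fun, Fintype.card_coe] at h3
              exact h3
            exact_mod_cast h2
          · rw [if_neg hU, mul_zero]
            exact mul_nonneg (by positivity) hg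
      _ = (Fintype.card κ : ℝ) ^ M₀ * (2 ^ T.card * ∑ U : Finset (Fin n), ∏ i ∈ U \ T, g i) := by
          rw [← Finset.mul_sum, ← Finset.mul_sum]
      _ ≤ (Fintype.card κ : ℝ) ^ M₀ * (2 ^ T.card * (2 ^ T.card * Real.exp (∑ i, g i))) := by
          have h1 : ∑ U : Finset (Fin n), ∏ i ∈ U \ T, g i ≤ 2 ^ T.card * Real.exp (∑ i, g i) := by
            have h2 : ∀ U : Finset (Fin n), ∏ i ∈ U \ T, g i =
                ∏ i ∈ U, (if i ∈ T then 1 else g i) := by
              intro U
              rw [Finset.prod_ite, Finset.prod_const_one, one_mul]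
              congr 1
              ext i
              simp [mem_sdiff]
            rw [Finset.sum_congr rfl (fun U _ => h2 U)]
            have h3 : ∑ U : Finset (Fin n), ∏ i ∈ U, (if i ∈ T then (1 : ℝ) else g i) =
                ∏ i, (1 + (if i ∈ T then (1 : ℝ) else g i)) := by
              rw [Finset.prod_one_add, Finset.powerset_univ]
            rw [h3]
            calc ∏ i, (1 + (if i ∈ T then (1 : ℝ) else g i)) ≤
                  ∏ i, ((if i ∈ T then 2 else 1) * Real.exp (g i)) := by
                    refine Finset.prod_le_prod (fun i _ => ?_) fun i _ => ?_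
                    · split_ifs
                      · norm_num
                      · linarith [hg0 i]
                    · have h4 : 1 ≤ Real.exp (g i) := Real.one_le_exp (hg0 i)
                      split_ifs
                      · linarith
                      · have := Real.add_one_le_exp (g i)
                        linarith
              _ = 2 ^ T.card * Real.exp (∑ i, g i) := by
                    rw [Finset.prod_mul_distrib, Finset.prod_ite_mem, Real.exp_sum]
                    simp
          gcongr
      _ = (Fintype.card κ : ℝ) ^ M₀ * Real.exp (∑ i, g i) * 4 ^ T.card := by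
          have h1 : (4 : ℝ) ^ T.card = 2 ^ T.card * 2 ^ T.card := by
            rw [← mul_pow]
            norm_num
          rw [h1]
          ring
  · intro E hE
    have h1 : ∃ D, y D * ∏ i, cf (g i) (D i) (E i) ≠ 0 := by
      by_contra h
      push Not at h
      exact hE (Finset.sum_eq_zero (fun D _ => h D))
    obtain ⟨D, hD⟩ := h1
    have h2 : y D ≠ 0 := left_ne_zero_of_mul hD
    have h3 : ∏ i, cf (g i) (D i) (E i) ≠ 0 := right_ne_zero_of_mul hD
    refine le_trans ?_ (hQ D h2)
    unfold qq
    apply Finset.prod_le_prod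
    · intro i _
      exact le_trans zero_le_one (nu1_ge_one (p i) (hp i) (E i))
    · intro i _
      have h4 : cf (g i) (D i) (E i) ≠ 0 := by
        intro h5
        exact h3 (Finset.prod_eq_zero (Finset.mem_univ i) h5)
      have h6 : E i = D i ∨ E i = none := by
        unfold cf at h4
        cases hDi : D i with
        | none =>
          rw [hDi] at h4
          by_cases h7 : E i = none
          · right; exact h7
          · simp [h7] at h4
        | some k =>
          rw [hDi] at h4
          by_cases h7 : E i = some k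
          · left; exact h7
          · by_cases h8 : E i = none
            · right; exact h8
            · simp [h7, h8] at h4
      rcases h6 with h6 | h6
      · rw [h6]
      · rw [h6]
        exact nu1_ge_one (p i) (hp i) (D i)

/-- transfer to a weighted set -/
theorem transferK (w : ℕ → ℝ) (M : ℕ) (A : ℝ) (col : ℕ → Col n κ) (p g : Fin n → ℝ)
    (err : Finset (Fin n) → ℝ) (Q K c : ℝ) (hK : 0 ≤ K) (hc : 0 ≤ c)
    (hcnt : ∀ D : Col n κ, qq p D ≤ Q →
      |∑ m ∈ range M, w m * ind D (col m) - A * nu g D| ≤ err (supp D))
    (F : Col n κ → ℝ) (hF : LK p Q K c F) :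
    |∑ m ∈ range M, w m * F (col m) - A * EE g F| ≤
      c * ∑ T : Finset (Fin n) with ∏ i ∈ T, p i ≤ Q, K ^ T.card * |err T| := by
  classical
  obtain ⟨f, hf1, hf2, hf3⟩ := hF
  have h1 : ∑ m ∈ range M, w m * F (col m) =
      ∑ D, f D * ∑ m ∈ range M, w m * ind D (col m) := by
    simp_rw [hf1, Finset.mul_sum]
    rw [Finset.sum_comm]
    refine Finset.sum_congr rfl fun D _ => Finset.sum_congr rfl fun m _ => ?_
    ring
  have h2 : EE g F = ∑ D, f D * nu g D := by
    have h3 : EE g F = ∑ D, f D * EE g (fun x => ind D x) := by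
      unfold EE
      simp_rw [hf1, Finset.mul_sum]
      rw [Finset.sum_comm]
      apply Finset.sum_congr rfl
      intro D _
      apply Finset.sum_congr rfl
      intro x _
      ring
    rw [h3]
    apply Finset.sum_congr rfl
    intro D _
    rw [EE_ind]
  rw [h1, h2, Finset.mul_sum, ← Finset.sum_sub_distrib]
  calc |∑ D, (f D * ∑ m ∈ range M, w m * ind D (col m) - A * (f D * nu g D))|
      ≤ ∑ D, |f D * ∑ m ∈ range M, w m * ind D (col m) - A * (f D * nu g D)| :=
        Finset.abs_sum_le_sum_abs _ _
    _ ≤ ∑ D : Col n κ, |f D| * (if ∏ i ∈ supp D, p i ≤ Q then |err (supp D)| else 0) := by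
        apply Finset.sum_le_sum
        intro D _
        have h4 : f D * ∑ m ∈ range M, w m * ind D (col m) - A * (f D * nu g D) =
            f D * (∑ m ∈ range M, w m * ind D (col m) - A * nu g D) := by ring
        rw [h4, abs_mul]
        by_cases hD : f D = 0
        · simp [hD]
        · have h5 := hf3 D hD
          have h6 : ∏ i ∈ supp D, p i ≤ Q := by
            rw [← prod_nu1]
            exact h5
          rw [if_pos h6]
          exact mul_le_mul_of_nonneg_left ((hcnt D h5).trans (le_abs_self _)) (abs_nonneg _)
    _ = ∑ T : Finset (Fin n), ∑ D : Col n κ with supp D = T,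
          |f D| * (if ∏ i ∈ supp D, p i ≤ Q then |err (supp D)| else 0) := by
        rw [Finset.sum_fiberwise]
    _ ≤ ∑ T : Finset (Fin n), (if ∏ i ∈ T, p i ≤ Q then c * (K ^ T.card * |err T|) else 0) := by
        refine Finset.sum_le_sum fun T _ => ?_
        have h3 : ∀ D ∈ univ.filter (fun D : Col n κ => supp D = T),
            |f D| * (if ∏ i ∈ supp D, p i ≤ Q then |err (supp D)| else 0) =
            |f D| * (if ∏ i ∈ T, p i ≤ Q then |err T| else 0) := by
          intro D hD
          rw [(mem_filter.mp hD).2]
        rw [Finset.sum_congr rfl h3, ← Finset.sum_mul]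
        split_ifs with h4
        · have h5 : ∑ D : Col n κ with supp D = T, |f D| ≤ c * K ^ T.card := by
            refine le_trans (Finset.sum_le_sum_of_subset_of_nonneg ?_ (fun _ _ _ => abs_nonneg _))
              (hf2 T)
            intro D hD
            rw [mem_filter] at hD ⊢
            exact ⟨hD.1, hD.2.subset⟩
          calc (∑ D : Col n κ with supp D = T, |f D|) * |err T| ≤ (c * K ^ T.card) * |err T| :=
                mul_le_mul_of_nonneg_right h5 (abs_nonneg _)
            _ = c * (K ^ T.card * |err T|) := by ring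
        · rw [mul_zero]
    _ = _ := by rw [← Finset.sum_filter, Finset.mul_sum]

end Pool.Agent.J4H30.SW
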