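import Pool.Agent.H398R2.RK.Surv2

/-!
Project SW, part 9: Rankin's choice of residue classes modulo the primes up to `y`, for intervals of length
`U` with `y log y ≤ U`.
-/

set_option autoImplicit false

open Finset Filter

namespace Pool.Agent.J4H30.SW

open Pool.Agent.H318R2.Cr

/-- number of primes up to a real number -/
lemma primes_le_real (Y : ℝ) (y : ℝ) (hy : 2 ≤ y) (hYy : 2 * y ≤ Y) :
    (((Icc 1 ⌊Y⌋₊).filter Nat.Prime).card : ℝ) ≤ 10 * Y / Real.log y := by
  have hY0 : 0 ≤ Y := by linarith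
  have hfl : (⌊Y⌋₊ : ℝ) ≤ Y := Nat.floor_le hY0
  have hfl2 : Y < ⌊Y⌋₊ + 1 := Nat.lt_floor_add_one Y
  have h2 : 2 ≤ ⌊Y⌋₊ := Nat.le_floor (by push_cast; linarith)
  have hyl : y ≤ (⌊Y⌋₊ : ℝ) := by linarith
  have hly : 0 < Real.log y := Real.log_pos (by linarith)
  refine (Pool.Agent.H398R2.RK.primes_le _ h2).trans ?_
  have h3 : Real.log y ≤ Real.log (⌊Y⌋₊ : ℝ) := Real.log_le_log (by linarith) hyl
  exact div_le_div₀ (by linarith) (by linarith) hly h3

/-- sum of the reciprocals of the primes in `(y, 2 ^ j y]` -/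
lemma recip_le (y : ℝ) (hy : 2 ≤ y) (j : ℕ) :
    ∑ p ∈ (Icc 1 ⌊2 ^ j * y⌋₊).filter (fun p : ℕ => p.Prime ∧ y < (p : ℝ)), 1 / (p : ℝ) ≤
      20 * j / Real.log y := by
  have hly : 0 < Real.log y := Real.log_pos (by linarith)
  induction j with
  | zero =>
    have h0 : (Icc 1 ⌊2 ^ 0 * y⌋₊).filter (fun p : ℕ => p.Prime ∧ y < (p : ℝ)) = ∅ := by
      rw [Finset.filter_eq_empty_iff]
      intro p hp h
      rw [mem_Icc] at hp
      have h1 : (p : ℝ) ≤ ⌊2 ^ 0 * y⌋₊ := by exact_mod_cast hp.2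
      have h2 : (⌊2 ^ 0 * y⌋₊ : ℝ) ≤ 2 ^ 0 * y := Nat.floor_le (by linarith)
      rw [pow_zero, one_mul] at h2
      rw [pow_zero, one_mul] at h1
      linarith [h.2]
    rw [h0]
    simp
  | succ j ih =>
    set Y : ℝ := 2 ^ j * y with hY
    have h2j : (1:ℝ) ≤ 2 ^ j := one_le_pow₀ (by norm_num)
    have hYy : y ≤ Y := le_mul_of_one_le_left (by linarith) h2j
    have hY0 : 0 < Y := by linarith
    have hY2 : (2:ℝ) ^ (j + 1) * y = 2 * Y := by rw [hY]; ring
    rw [hY2]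
    have hsub : (Icc 1 ⌊2 * Y⌋₊).filter (fun p : ℕ => p.Prime ∧ y < (p : ℝ)) ⊆
        (Icc 1 ⌊Y⌋₊).filter (fun p : ℕ => p.Prime ∧ y < (p : ℝ)) ∪
        (Icc 1 ⌊2 * Y⌋₊).filter (fun p : ℕ => p.Prime ∧ Y < (p : ℝ)) := by
      intro p hp
      rw [mem_filter, mem_Icc] at hp
      rw [mem_union, mem_filter, mem_filter, mem_Icc, mem_Icc]
      by_cases h : (p : ℝ) ≤ Y
      · left
        exact ⟨⟨hp.1.1, Nat.le_floor h⟩, hp.2⟩
      · right
        push Not at h
        exact ⟨hp.1, hp.2.1, h⟩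
    have h3 : ∑ p ∈ (Icc 1 ⌊2 * Y⌋₊).filter (fun p : ℕ => p.Prime ∧ Y < (p : ℝ)), 1 / (p : ℝ) ≤
        20 / Real.log y := by
      calc ∑ p ∈ (Icc 1 ⌊2 * Y⌋₊).filter (fun p : ℕ => p.Prime ∧ Y < (p : ℝ)), 1 / (p : ℝ)
          ≤ ∑ p ∈ (Icc 1 ⌊2 * Y⌋₊).filter (fun p : ℕ => p.Prime ∧ Y < (p : ℝ)), 1 / Y := by
            refine Finset.sum_le_sum fun p hp => ?_
            exact one_div_le_one_div_of_le hY0 (mem_filter.mp hp).2.2.le
        _ = ((Icc 1 ⌊2 * Y⌋₊).filter (fun p : ℕ => p.Prime ∧ Y < (p : ℝ))).card * (1 / Y) := by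
            rw [Finset.sum_const, nsmul_eq_mul]
        _ ≤ ((Icc 1 ⌊2 * Y⌋₊).filter Nat.Prime).card * (1 / Y) := by
            gcongr with p
            exact fun h => h.1
        _ ≤ (10 * (2 * Y) / Real.log y) * (1 / Y) := by
            gcongr
            exact primes_le_real (2 * Y) y hy (by linarith)
        _ = 20 / Real.log y := by field_simp; norm_num
    have h4 : ∑ p ∈ (Icc 1 ⌊2 * Y⌋₊).filter (fun p : ℕ => p.Prime ∧ y < (p : ℝ)), 1 / (p : ℝ) ≤
        ∑ p ∈ (Icc 1 ⌊Y⌋₊).filter (fun p : ℕ => p.Prime ∧ y < (p : ℝ)), 1 / (p : ℝ) +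
        ∑ p ∈ (Icc 1 ⌊2 * Y⌋₊).filter (fun p : ℕ => p.Prime ∧ Y < (p : ℝ)), 1 / (p : ℝ) := by
      refine (Finset.sum_le_sum_of_subset_of_nonneg hsub fun p _ _ => by positivity).trans ?_
      rw [← Finset.sum_union_inter]
      have h5 : 0 ≤ ∑ p ∈ (Icc 1 ⌊Y⌋₊).filter (fun p : ℕ => p.Prime ∧ y < (p : ℝ)) ∩
        (Icc 1 ⌊2 * Y⌋₊).filter (fun p : ℕ => p.Prime ∧ Y < (p : ℝ)), 1 / (p : ℝ) :=
        Finset.sum_nonneg fun p _ => by positivity
      linarith
    refine h4.trans ?_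
    push_cast
    have h6 : 20 * ((j:ℝ) + 1) / Real.log y = 20 * j / Real.log y + 20 / Real.log y := by ring
    rw [h6]
    linarith

/-- sum of the reciprocals of the primes in `(y, U]` -/
lemma recip_le2 (y : ℝ) (hy : 2 ≤ y) (U : ℕ) (hU : 1 ≤ Real.log (U / y)) :
    ∑ p ∈ (Icc 1 U).filter (fun p : ℕ => p.Prime ∧ y < (p : ℝ)), 1 / (p : ℝ) ≤
      60 * Real.log (U / y) / Real.log y := by
  have hly : 0 < Real.log y := Real.log_pos (by linarith)
  have hy0 : 0 < y := by linarith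
  have hUy : 1 < (U : ℝ) / y := by
    by_contra h
    push Not at h
    have := Real.log_nonpos (by positivity) h
    linarith
  have hU0 : (0:ℝ) < U := by
    rw [lt_div_iff₀ hy0] at hUy
    linarith
  set j : ℕ := ⌈2 * Real.log (U / y)⌉₊ with hj
  have hj1 : 2 * Real.log (U / y) ≤ j := Nat.le_ceil _
  have hj2 : (j : ℝ) ≤ 3 * Real.log (U / y) := by
    have := Nat.ceil_lt_add_one (show 0 ≤ 2 * Real.log (U / y) by positivity)
    linarith
  have hUj : (U : ℝ) ≤ 2 ^ j * y := by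
    have h1 : (U : ℝ) / y ≤ 2 ^ j := by
      rw [← Real.log_le_log_iff (by linarith) (by positivity), Real.log_pow]
      have h2 := Real.log_two_gt_d9
      calc Real.log (U / y) = 2 * Real.log (U / y) * 0.5 := by ring
        _ ≤ j * Real.log 2 := by
          apply mul_le_mul hj1 (by linarith) (by norm_num) (Nat.cast_nonneg _)
    rwa [div_le_iff₀ hy0] at h1
  refine le_trans ?_ ((recip_le y hy j).trans ?_)
  · refine Finset.sum_le_sum_of_subset_of_nonneg ?_ fun p _ _ => by positivity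
    intro p hp
    rw [mem_filter, mem_Icc] at hp ⊢
    exact ⟨⟨hp.1.1, hp.1.2.trans (Nat.le_floor hUj)⟩, hp.2⟩
  · apply div_le_div_of_nonneg_right _ hly.le
    linarith

open Classical in
/-- numbers with a prime factor greater than `y` -/
lemma count_big (y : ℝ) (hy : 2 ≤ y) (U : ℕ) (hU : 1 ≤ Real.log (U / y)) :
    (((Icc 1 U).filter (fun k => ∃ p : ℕ, p.Prime ∧ y < (p : ℝ) ∧ p ∣ k)).card : ℝ) ≤
      60 * U * Real.log (U / y) / Real.log y := by
  have h1 : (Icc 1 U).filter (fun k => ∃ p : ℕ, p.Prime ∧ y < (p : ℝ) ∧ p ∣ k) ⊆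
      ((Icc 1 U).filter (fun p : ℕ => p.Prime ∧ y < (p : ℝ))).biUnion
        (fun p => (Icc 1 U).filter (fun k => p ∣ k)) := by
    intro k hk
    rw [mem_filter, mem_Icc] at hk
    obtain ⟨⟨hk1, hk2⟩, p, hp, hpy, hpk⟩ := hk
    rw [mem_biUnion]
    refine ⟨p, mem_filter.mpr ⟨mem_Icc.mpr ⟨hp.pos, ?_⟩, hp, hpy⟩,
      mem_filter.mpr ⟨mem_Icc.mpr ⟨hk1, hk2⟩, hpk⟩⟩
    exact (Nat.le_of_dvd hk1 hpk).trans hk2
  have h2 : (((Icc 1 U).filter (fun k => ∃ p : ℕ, p.Prime ∧ y < (p : ℝ) ∧ p ∣ k)).card : ℝ) ≤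
      ∑ p ∈ (Icc 1 U).filter (fun p : ℕ => p.Prime ∧ y < (p : ℝ)), (U : ℝ) * (1 / (p : ℝ)) := by
    have h3 := (Finset.card_le_card h1).trans Finset.card_biUnion_le
    have h4 : (((Icc 1 U).filter (fun k => ∃ p : ℕ, p.Prime ∧ y < (p : ℝ) ∧ p ∣ k)).card : ℝ) ≤
        ∑ p ∈ (Icc 1 U).filter (fun p : ℕ => p.Prime ∧ y < (p : ℝ)),
          (((Icc 1 U).filter (fun k => p ∣ k)).card : ℝ) := by exact_mod_cast h3
    refine h4.trans (Finset.sum_le_sum fun p hp => ?_)
    have hp' := (mem_filter.mp hp).2.1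
    have h5 : ((Icc 1 U).filter (fun k => p ∣ k)).card = U / p := by
      have : Icc 1 U = Ioc 0 U := by
        ext k
        rw [mem_Icc, mem_Ioc]
        omega
      rw [this]
      exact Nat.Ioc_filter_dvd_card_eq_div U p
    rw [h5, mul_one_div]
    exact Nat.cast_div_le
  refine h2.trans ?_
  rw [← Finset.mul_sum]
  calc (U : ℝ) * ∑ p ∈ (Icc 1 U).filter (fun p : ℕ => p.Prime ∧ y < (p : ℝ)), 1 / (p : ℝ) ≤
        U * (60 * Real.log (U / y) / Real.log y) :=
        mul_le_mul_of_nonneg_left (recip_le2 y hy U hU) (Nat.cast_nonneg _)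
    _ = _ := by ring

open Classical in
/-- Rankin's choice of residue classes -/
theorem rankin_gen : ∃ C : ℝ, 0 < C ∧ ∃ y₀ : ℝ, ∀ y : ℝ, y₀ ≤ y → ∀ U : ℕ, y * 3 ≤ U →
    ∃ b : ℕ → ℕ,
      (((Finset.Icc 1 U).filter (fun k => ∀ p : ℕ, p.Prime → (p : ℝ) ≤ y →
        ¬ k ≡ b p [MOD p])).card : ℝ) ≤
      C * U * (Real.log (U / y) * Real.log (Real.log y)) /
        ((Real.log y) ^ 2 * Real.log (Real.log (Real.log y))) := by
  obtain ⟨c₁, c₂, hc₁, hc₁₂, hV⟩ := cz_bounds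
  obtain ⟨y₁, hsm⟩ := Pool.Agent.H398R2.RK.smooth_count
  obtain ⟨t₀, hev⟩ := Pool.Agent.H398R2.RK.ev_surv
  have hc₂ : 0 < c₂ := hc₁.trans_le hc₁₂
  refine ⟨61 * c₂ * 20, by positivity, max y₁ (Real.exp (Real.exp t₀)), fun y hy U hyU => ?_⟩
  have hy' := (le_max_right _ _).trans hy
  have hy0 : 0 < y := (Real.exp_pos _).trans_le hy'
  have hsm' := hsm y ((le_max_left _ _).trans hy) U (by linarith)
  have hL1' : Real.exp t₀ ≤ Real.log y := by
    rw [← Real.log_exp (Real.exp t₀)]; exact Real.log_le_log (Real.exp_pos _) hy'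
  have hly : 0 < Real.log y := (Real.exp_pos _).trans_le hL1'
  set t := Real.log (Real.log y) with ht
  have htt : t₀ ≤ t := by
    rw [← Real.log_exp t₀]; exact Real.log_le_log (Real.exp_pos _) hL1'
  obtain ⟨h1, h2, h3, h4, h5, h6⟩ := hev t htt
  have hLe : Real.log y = Real.exp t := by rw [ht, Real.exp_log hly]
  have hye : y = Real.exp (Real.exp t) := by rw [← hLe, Real.exp_log hy0]
  set V0 := Real.log y * Real.log t / (10 * t) with hV0
  have ht0 : 0 < t := by linarith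
  have hlt0 : 0 < Real.log t := by linarith
  have hV1 : 2 * t ≤ V0 := by
    rw [hV0, le_div_iff₀ (by positivity), hLe]
    nlinarith [Real.exp_pos t]
  have hV1le : V0 ≤ Real.log y := by
    rw [hV0, div_le_iff₀ (by positivity), hLe]
    nlinarith [Real.exp_pos t]
  have hV0pos : 0 < V0 := by linarith
  set v : ℕ := ⌊Real.exp V0⌋₊ with hv
  have hvle : (v : ℝ) ≤ Real.exp V0 := Nat.floor_le (Real.exp_pos _).le
  have hvlt : Real.exp V0 < v + 1 := Nat.lt_floor_add_one _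
  have hy2 : 2 ≤ y := by
    have : Real.exp 1 ≤ y := by
      rw [hye]
      apply Real.exp_le_exp.mpr
      linarith
    have := Real.exp_one_gt_d9
    linarith
  have hv2 : 2 ≤ v := by
    rw [hv, Nat.le_floor_iff (Real.exp_pos _).le]
    have h7 := Real.add_one_le_exp V0
    push_cast
    linarith
  have hlv : V0 / 2 ≤ Real.log v := by
    have h8 : (2 : ℝ) ≤ v := by exact_mod_cast hv2
    have h9 : Real.exp V0 ≤ (v : ℝ) ^ 2 := by nlinarith
    have h10 := Real.log_le_log (Real.exp_pos _) h9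
    rw [Real.log_exp, Real.log_pow] at h10
    push_cast at h10; linarith
  have hlv0 : 0 < Real.log (v:ℝ) := by linarith
  have hvy : (v : ℝ) ≤ y := by
    calc (v : ℝ) ≤ Real.exp V0 := hvle
      _ ≤ Real.exp (Real.log y) := Real.exp_le_exp.mpr hV1le
      _ = y := Real.exp_log hy0
  set R := (Icc 1 U).filter (fun k => ∀ p : ℕ, p.Prime → v < p → (p : ℝ) ≤ y → ¬ p ∣ k) with hR
  obtain ⟨b, hb, hbc⟩ := Pool.Agent.H398R2.RK.greedy_all (Pz v)
    (fun p hp => (mem_Pz.mp hp).1) R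
  refine ⟨fun p => if p ≤ v then b p else 0, ?_⟩
  have hsub1 : (Finset.Icc 1 U).filter (fun k => ∀ p : ℕ, p.Prime → (p : ℝ) ≤ y →
      ¬ k ≡ (if p ≤ v then b p else 0) [MOD p]) ⊆
      R.filter (fun k => ∀ p ∈ Pz v, ¬ k ≡ b p [MOD p]) := by
    intro k hk
    rw [mem_filter] at hk
    rw [mem_filter, hR, mem_filter]
    refine ⟨⟨hk.1, fun p hp hvp hpy hd => ?_⟩, fun p hpS => ?_⟩
    · have := hk.2 p hp hpy
      rw [if_neg (by omega)] at this
      exact this ((Nat.modEq_zero_iff_dvd).mpr hd)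
    · rw [mem_Pz] at hpS
      have h7 : (p : ℝ) ≤ y := by
        have : (p : ℝ) ≤ v := by exact_mod_cast hpS.2
        linarith
      have := hk.2 p hpS.1 h7
      rwa [if_pos hpS.2] at this
  refine (Nat.cast_le.2 (card_le_card hsub1)).trans (hbc.trans ?_)
  have hUy : 3 ≤ (U : ℝ) / y := by
    rw [le_div_iff₀ hy0]
    linarith
  have hlog1 : 1 ≤ Real.log (U / y) := by
    rw [Real.le_log_iff_exp_le (by linarith)]
    have := Real.exp_one_lt_d9
    linarith
  have hU0 : (0:ℝ) < U := by linarith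
  have hRcard : (R.card : ℝ) ≤ 61 * U * Real.log (U / y) / Real.log y := by
    have h7 : R ⊆ (Icc 1 U).filter (fun k => ∃ p : ℕ, p.Prime ∧ y < (p : ℝ) ∧ p ∣ k) ∪
        (Finset.Icc 1 U).filter (fun m => ∀ p : ℕ, p.Prime → p ∣ m → Real.log p ≤ V0) := by
      intro k hk
      rw [hR, mem_filter] at hk
      rw [mem_union, mem_filter, mem_filter]
      by_cases hall : ∀ p : ℕ, p.Prime → p ∣ k → Real.log p ≤ V0
      · exact Or.inr ⟨hk.1, hall⟩
      · left
        push Not at hall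
        obtain ⟨p, hp, hd, hlp⟩ := hall
        refine ⟨hk.1, p, hp, ?_, hd⟩
        by_contra hcon
        push Not at hcon
        refine hk.2 p hp ?_ hcon hd
        by_contra h8
        push Not at h8
        have h9 : Real.log p ≤ V0 := by
          have hp0 : (0:ℝ) < p := by exact_mod_cast hp.pos
          rw [Real.log_le_iff_le_exp hp0]
          have : (p : ℝ) ≤ v := by exact_mod_cast h8
          linarith
        linarith
    have h8 : (R.card : ℝ) ≤
        (((Icc 1 U).filter (fun k => ∃ p : ℕ, p.Prime ∧ y < (p : ℝ) ∧ p ∣ k)).card : ℝ) +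
        (((Finset.Icc 1 U).filter (fun m => ∀ p : ℕ, p.Prime → p ∣ m → Real.log p ≤ V0)).card : ℝ) := by
      exact_mod_cast (card_le_card h7).trans (card_union_le _ _)
    have h9 := count_big y hy2 U hlog1
    have h11 : (U : ℝ) / (Real.log y) ^ 3 ≤ U * Real.log (U / y) / Real.log y := by
      rw [div_le_div_iff₀ (by positivity) hly]
      have h12 : 1 ≤ Real.log y := by
        rw [hLe]; linarith
      have h13 : Real.log y ≤ Real.log y ^ 3 := by
        calc Real.log y = Real.log y ^ 1 := (pow_one _).symm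
          _ ≤ Real.log y ^ 3 := pow_le_pow_right₀ h12 (by norm_num)
      calc (U:ℝ) * Real.log y = U * 1 * Real.log y := by ring
        _ ≤ U * Real.log (U / y) * Real.log y ^ 3 := by gcongr
    have h12 : 61 * (U : ℝ) * Real.log (U / y) / Real.log y =
        60 * U * Real.log (U / y) / Real.log y + U * Real.log (U / y) / Real.log y := by ring
    rw [h12]
    have h13 : (((Finset.Icc 1 U).filter (fun m => ∀ p : ℕ, p.Prime → p ∣ m →
      Real.log p ≤ V0)).card : ℝ) ≤ U / (Real.log y) ^ 3 := hsm'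
    linarith
  have hVv : V v ≤ c₂ * (20 * t / (Real.log y * Real.log t)) := by
    have h7 := (hV v hv2).2
    have h8 : V v ≤ c₂ / Real.log v := by
      rw [le_div_iff₀ hlv0]
      exact h7
    refine h8.trans ?_
    calc c₂ / Real.log v ≤ c₂ / (V0 / 2) := div_le_div_of_nonneg_left hc₂.le (by positivity) hlv
      _ = c₂ * (20 * t / (Real.log y * Real.log t)) := by
        rw [hV0]
        field_simp
        norm_num
  calc (R.card : ℝ) * ∏ p ∈ Pz v, (1 - 1 / (p : ℝ)) ≤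
        (61 * U * Real.log (U / y) / Real.log y) * (c₂ * (20 * t / (Real.log y * Real.log t))) := by
        apply mul_le_mul hRcard hVv _ (by positivity)
        exact (V_pos v).le
    _ = _ := by
        field_simp

end Pool.Agent.J4H30.SW
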