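import Pool.Agent.J4H30.SW.Gen
import Pool.Agent.H398R2.RK.Surv2

/-!
Project SW, part 8: arbitrary sets of at most `c log N log log N` shifts in almost all windows.
-/

set_option autoImplicit false

open Finset Filter

namespace Pool.Agent.J4H30.SW

open Pool.Agent.H410R2.AC Pool.Agent.H410R2.EN Pool.Agent.H143R2.ACF Pool.Agent.J4H30.AW

/-- Chinese remainder theorem: from residue classes to one shift -/
lemma crt_shift (z : ℕ) (b : ℕ → ℕ) : ∃ r : ℕ, ∀ s : ℕ, Nat.Coprime (r + s) (primorial z) →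
    ∀ p : ℕ, p.Prime → p ≤ z → ¬ s ≡ b p [MOD p] := by
  classical
  set P : Finset ℕ := (range (z + 1)).filter Nat.Prime with hP
  have hPm : ∀ p ∈ P, p.Prime := fun p hp => (mem_filter.mp hp).2
  have hcop : (P : Set ℕ).Pairwise (Function.onFun Nat.Coprime (fun p => p)) := by
    intro i hi j hj hij
    exact (Nat.coprime_primes (hPm i hi) (hPm j hj)).mpr hij
  set r := (Nat.chineseRemainderOfFinset (fun p => p - b p % p) (fun p => p) P
    (fun p hp => (hPm p hp).ne_zero) hcop : ℕ) with hr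
  have hr2 : ∀ p ∈ P, r ≡ p - b p % p [MOD p] :=
    (Nat.chineseRemainderOfFinset (fun p => p - b p % p) (fun p => p) P
      (fun p hp => (hPm p hp).ne_zero) hcop).2
  refine ⟨r, fun s hs p hp hpz hsb => ?_⟩
  have hpP : p ∈ P := mem_filter.mpr ⟨mem_range.mpr (by omega), hp⟩
  have h1 := hr2 p hpP
  have h2 : s ≡ b p % p [MOD p] := hsb.trans (Nat.mod_modEq _ _).symm
  have h3 := h1.add h2
  have h4 : b p % p < p := Nat.mod_lt _ hp.pos
  have h5 : p - b p % p + b p % p = p := by omega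
  rw [h5] at h3
  have h6 : p ∣ r + s := by
    refine (Nat.modEq_zero_iff_dvd).mp (h3.trans ?_)
    exact (Nat.modEq_zero_iff_dvd).mpr dvd_rfl
  have h7 : p ∣ primorial z := by
    unfold primorial
    exact Finset.dvd_prod_of_mem _ hpP
  have h8 := Nat.dvd_gcd h6 h7
  rw [Nat.Coprime] at hs
  rw [hs] at h8
  exact hp.one_lt.ne' (Nat.dvd_one.mp h8)

lemma ev_t1 (δ ε : ℝ) (hδ : 0 < δ) (hε : 0 < ε) : ∀ᶠ x : ℝ in atTop,
    1 ≤ x ∧ 1 ≤ Real.log x ∧ 2 * Real.exp 1 ≤ ε / 12 * x ^ δ ∧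
      Real.log (24 / ε) ≤ δ / 2 * Real.log x := by
  have h1 : ∀ᶠ x : ℝ in atTop, 1 ≤ Real.log x := Real.tendsto_log_atTop.eventually_ge_atTop 1
  have h2 : ∀ᶠ x : ℝ in atTop, 2 * Real.exp 1 ≤ ε / 12 * x ^ δ :=
    ((tendsto_rpow_atTop hδ).const_mul_atTop (by positivity)).eventually_ge_atTop _
  have h3 : ∀ᶠ x : ℝ in atTop, Real.log (24 / ε) ≤ δ / 2 * Real.log x :=
    (Real.tendsto_log_atTop.const_mul_atTop (by positivity)).eventually_ge_atTop _
  filter_upwards [eventually_ge_atTop (1:ℝ), h1, h2, h3] with x g0 g1 g2 g3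
  exact ⟨g0, g1, g2, g3⟩

open Classical in
theorem t1 (δ ε θ : ℝ) (A : ℕ) (hδ : 0 < δ) (hε : 0 < ε) (hε1 : ε ≤ 1) (hθ : 0 < θ)
    (hθ1 : θ ≤ 1) :
    ∃ c : ℝ, 0 < c ∧ ∃ N₀ : ℕ, ∀ N : ℕ, N₀ ≤ N → ∀ H : ℕ, Real.exp (Real.log N ^ δ) ≤ H → H ≤ N →
    ∀ M : ℕ, ∀ S : Finset ℕ, (∀ s ∈ S, (s:ℝ) ≤ Real.log N ^ A) →
      (S.card : ℝ) ≤ c * Real.log N * Real.log (Real.log N) →
      (((Ioc M (M + N)).filter (fun n => ¬ ∃ m, n < m ∧ 2 * m ≤ 2 * n + H ∧
         Gd S N θ m)).card : ℝ) ≤ N * (H : ℝ) ^ ε / H := by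
  obtain ⟨c, hc, N₀, hmain⟩ := win_main δ ε θ A hδ hε hε1 hθ hθ1
  obtain ⟨c₁, c₂, hc₁, hc₁₂, hV⟩ := Pool.Agent.H318R2.Cr.cz_bounds
  have hc₂ : 0 < c₂ := hc₁.trans_le hc₁₂
  obtain ⟨x₀, hx₀⟩ := Filter.eventually_atTop.mp (ev_t1 δ ε hδ hε)
  obtain ⟨N₁, hN₁⟩ := Filter.eventually_atTop.mp (tendsto_logN.eventually_ge_atTop x₀)
  refine ⟨c * δ / (2 * c₂), by positivity, max N₀ N₁, fun N hN H hH1 hH2 M S hS1 hS2 => ?_⟩
  set x : ℝ := Real.log N with hx
  obtain ⟨g0, g1, g2, g3⟩ := hx₀ x (hN₁ N ((le_max_right _ _).trans hN))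
  have hx0 : 0 < x := by linarith
  have hHR0 : (0 : ℝ) < H := lt_of_lt_of_le (Real.exp_pos _) hH1
  have hlogH : x ^ δ ≤ Real.log H := by
    rw [← Real.log_exp (x ^ δ)]
    exact Real.log_le_log (Real.exp_pos _) hH1
  have hxδ0 : 0 < x ^ δ := Real.rpow_pos_of_pos hx0 _
  set z0 : ℕ := ⌊ε / 12 * Real.log H⌋₊ with hz0
  have hz1 : ε / 24 * x ^ δ ≤ (z0 : ℝ) ∧ 2 ≤ z0 := by
    have e1 : ε / 12 * Real.log H < z0 + 1 := Nat.lt_floor_add_one _
    have e2 : ε / 12 * x ^ δ ≤ ε / 12 * Real.log H := by gcongr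
    have e3 : (2.7:ℝ) ≤ Real.exp 1 := by
      have := Real.exp_one_gt_d9
      linarith
    refine ⟨by linarith, ?_⟩
    have e4 : (2:ℝ) < (z0:ℝ) := by linarith
    have : 2 < z0 := by exact_mod_cast e4
    omega
  have hlz : δ / 2 * Real.log x ≤ Real.log z0 := by
    have e1 : Real.log (ε / 24 * x ^ δ) ≤ Real.log z0 := Real.log_le_log (by positivity) hz1.1
    rw [Real.log_mul (by positivity) hxδ0.ne', Real.log_rpow hx0] at e1
    have e2 : Real.log (ε / 24) = - Real.log (24 / ε) := by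
      rw [← Real.log_inv]
      congr 1
      field_simp
    rw [e2] at e1
    linarith
  have hlz0 : 0 < Real.log (z0:ℝ) := lt_of_lt_of_le (by positivity) hlz
  obtain ⟨b, hb, hbc⟩ := Pool.Agent.H398R2.RK.greedy_all (Pool.Agent.H318R2.Cr.Pz z0)
    (fun p hp => (Pool.Agent.H318R2.Cr.mem_Pz.mp hp).1) S
  obtain ⟨r, hr⟩ := crt_shift z0 b
  have hcount : ((S.filter (fun s => Nat.Coprime (r + s) (primorial z0))).card : ℝ) ≤ c * x := by
    have h1 : ((S.filter (fun s => Nat.Coprime (r + s) (primorial z0))).card : ℝ) ≤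
        ((S.filter (fun k => ∀ p ∈ Pool.Agent.H318R2.Cr.Pz z0, ¬ k ≡ b p [MOD p])).card : ℝ) := by
      rw [Nat.cast_le]
      apply Finset.card_le_card
      intro s hs
      rw [mem_filter] at hs ⊢
      refine ⟨hs.1, fun p hp => ?_⟩
      rw [Pool.Agent.H318R2.Cr.mem_Pz] at hp
      exact hr s hs.2 p hp.1 hp.2
    refine h1.trans (hbc.trans ?_)
    have h2 := (hV z0 hz1.2).2
    have h3 : Pool.Agent.H318R2.Cr.V z0 ≤ c₂ / Real.log z0 := by
      rw [le_div_iff₀ hlz0]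
      exact h2
    calc (S.card : ℝ) * ∏ p ∈ Pool.Agent.H318R2.Cr.Pz z0, (1 - 1 / (p : ℝ)) ≤
          (c * δ / (2 * c₂) * x * Real.log x) * (c₂ / Real.log z0) := by
          apply mul_le_mul hS2 h3 _ (by positivity)
          refine Finset.prod_nonneg fun p hp => ?_
          have h4 := (Pool.Agent.H318R2.Cr.mem_Pz.mp hp).1.one_lt
          have h5 : (1:ℝ) < p := by exact_mod_cast h4
          have h6 : 1 / (p:ℝ) ≤ 1 := by rw [div_le_one (by linarith)]; exact h5.le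
          linarith
      _ = c * x * ((δ / 2 * Real.log x) / Real.log z0) := by field_simp
      _ ≤ c * x * 1 := by
          have : (δ / 2 * Real.log x) / Real.log z0 ≤ 1 := by rw [div_le_one hlz0]; exact hlz
          gcongr
      _ = c * x := mul_one _
  refine le_trans ?_ (hmain N ((le_max_left _ _).trans hN) H hH1 hH2 M r S hS1 hcount)
  rw [Nat.cast_le]
  apply Finset.card_le_card
  intro n hn
  rw [mem_filter] at hn ⊢
  refine ⟨hn.1, ?_⟩
  rintro ⟨m, h1, h2, -, h3⟩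
  exact hn.2 ⟨m, h1, h2, h3⟩

end Pool.Agent.J4H30.SW
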