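import Pool.Agent.J4H30.SW.T1
import Pool.Agent.J4H30.SW.Rank

/-!
Project SW, part 10: record gaps in almost all windows.
-/

set_option autoImplicit false

open Finset Filter

namespace Pool.Agent.J4H30.SW

open Pool.Agent.H410R2.AC Pool.Agent.H410R2.EN Pool.Agent.H143R2.ACF Pool.Agent.J4H30.AW

/-- the length of the gaps, `x = log N`, `h = log H` -/
noncomputable def FF (x h : ℝ) : ℝ :=
  x * (Real.log x) ^ 2 * Real.log (Real.log (Real.log x)) /
    (Real.log (Real.log x) * (Real.log (Real.log x) + Real.log (x / h)))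

lemma ev_t2 (δ ε y₀ c : ℝ) (hδ : 0 < δ) (hε : 0 < ε) (hc : 0 < c) : ∀ᶠ x : ℝ in atTop,
    1 ≤ x ∧ 1 ≤ Real.log x ∧ 1 ≤ x ^ δ ∧ y₀ ≤ ε / 12 * x ^ δ ∧ 1 ≤ Real.log (Real.log x) ∧
      Real.log (12 / ε) ≤ Real.log (Real.log x) ∧
      2 ≤ Real.log (Real.log (Real.log x)) ∧
      Real.log (12 / ε) ≤ δ / 2 * Real.log x ∧
      4 / δ ^ 2 ≤ Real.log x ∧
      2 * (Real.log (Real.log x) * (Real.log (Real.log x) + 1)) ≤ c * (Real.log x) ^ 2 ∧
      (Real.log x) ^ 2 ≤ x ∧ 2 * x ^ 2 ≤ Real.exp (x ^ δ) := by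
  have t1 : Tendsto (fun x : ℝ => Real.log x) atTop atTop := Real.tendsto_log_atTop
  have t2 : Tendsto (fun x : ℝ => Real.log (Real.log x)) atTop atTop :=
    Real.tendsto_log_atTop.comp t1
  have t3 : Tendsto (fun x : ℝ => Real.log (Real.log (Real.log x))) atTop atTop :=
    Real.tendsto_log_atTop.comp t2
  have h2 : ∀ᶠ x : ℝ in atTop, y₀ ≤ ε / 12 * x ^ δ :=
    ((tendsto_rpow_atTop hδ).const_mul_atTop (by positivity)).eventually_ge_atTop _
  have h3 : ∀ᶠ x : ℝ in atTop, 1 ≤ x ^ δ := (tendsto_rpow_atTop hδ).eventually_ge_atTop _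
  have h4 : ∀ᶠ x : ℝ in atTop, Real.log (12 / ε) ≤ δ / 2 * Real.log x :=
    (t1.const_mul_atTop (by positivity)).eventually_ge_atTop _
  have h5 : ∀ᶠ x : ℝ in atTop,
      2 * (Real.log (Real.log x) * (Real.log (Real.log x) + 1)) ≤ c * (Real.log x) ^ 2 := by
    have e1 : ∀ᶠ y : ℝ in atTop, 2 * (Real.log y * (Real.log y + 1)) ≤ c * y ^ 2 := by
      have e2 := Real.isLittleO_log_id_atTop.def (show (0:ℝ) < Real.sqrt c / 2 by positivity)
      filter_upwards [e2, eventually_ge_atTop (1:ℝ), t1.eventually_ge_atTop 1] with y hy hy1 hy2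
      rw [Real.norm_eq_abs, abs_of_nonneg (Real.log_nonneg hy1), Real.norm_eq_abs] at hy
      simp only [id] at hy
      rw [abs_of_nonneg (by linarith)] at hy
      have e3 : (Real.log y) ^ 2 ≤ (Real.sqrt c / 2 * y) ^ 2 := by
        apply pow_le_pow_left₀ (by linarith) hy
      have e4 : (Real.sqrt c / 2 * y) ^ 2 = c / 4 * y ^ 2 := by
        rw [mul_pow, div_pow, Real.sq_sqrt hc.le]
        norm_num
      rw [e4] at e3
      nlinarith
    exact t1.eventually e1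
  have h6 : ∀ᶠ x : ℝ in atTop, (Real.log x) ^ 2 ≤ x := by
    have e1 : (fun L : ℝ => (Real.log L) ^ (2:ℝ)) =o[atTop] (fun L : ℝ => L ^ (1 : ℝ)) :=
      isLittleO_log_rpow_rpow_atTop 2 (by norm_num)
    have e2 := e1.def (show (0:ℝ) < 1 by norm_num)
    filter_upwards [e2, eventually_ge_atTop (1:ℝ)] with L hL hL2
    rw [Real.norm_eq_abs, Real.norm_eq_abs,
      abs_of_nonneg (Real.rpow_nonneg (Real.log_nonneg hL2) _),
      abs_of_nonneg (Real.rpow_nonneg (by linarith) _), one_mul, Real.rpow_one] at hL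
    have e3 : (Real.log L) ^ (2:ℝ) = (Real.log L) ^ 2 := by
      rw [← Real.rpow_natCast]; norm_num
    rw [e3] at hL
    exact hL
  have h7 : ∀ᶠ x : ℝ in atTop, 2 * x ^ 2 ≤ Real.exp (x ^ δ) := by
    filter_upwards [ev_x δ 0 1 0 0 2 hδ one_pos] with x hx
    exact hx.2.2.2.2.2.2.1
  filter_upwards [eventually_ge_atTop (1:ℝ), t1.eventually_ge_atTop 1, h3, h2,
    t2.eventually_ge_atTop 1, t2.eventually_ge_atTop (Real.log (12 / ε)),
    t3.eventually_ge_atTop 2, h4, t1.eventually_ge_atTop (4 / δ ^ 2), h5, h6, h7]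
    with x g0 g1 g2 g3 g4 g5 g6 g7 g8 g9 g10 g11
  exact ⟨g0, g1, g2, g3, g4, g5, g6, g7, g8, g9, g10, g11⟩

open Classical in
theorem t2 (δ ε θ : ℝ) (hδ : 0 < δ) (hε : 0 < ε) (hε1 : ε ≤ 1) (hθ : 0 < θ) (hθ1 : θ ≤ 1) :
    ∃ c : ℝ, 0 < c ∧ ∃ N₀ : ℕ, ∀ N : ℕ, N₀ ≤ N → ∀ H : ℕ, Real.exp (Real.log N ^ δ) ≤ H → H ≤ N →
    ∀ M : ℕ, (((Ioc M (M + N)).filter (fun n => ¬ ∃ m : ℕ, n < m ∧
      (m : ℝ) + c * FF (Real.log N) (Real.log H) ≤ n + H ∧ ∀ k : ℕ, m < k →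
        (k : ℝ) ≤ m + c * FF (Real.log N) (Real.log H) →
          ∃ p : ℕ, p.Prime ∧ (p : ℝ) ≤ (N : ℝ) ^ θ ∧ p ∣ k)).card : ℝ) ≤
        N * (H : ℝ) ^ ε / H := by
  obtain ⟨c', hc', N₀, hmain⟩ := win_main δ ε θ 2 hδ hε hε1 hθ hθ1
  obtain ⟨C, hC, y₀, hrank⟩ := rankin_gen
  set c : ℝ := min 1 (c' * δ ^ 2 / (24 * C)) with hc
  have hc0 : 0 < c := lt_min one_pos (by positivity)
  have hc1 : c ≤ 1 := min_le_left _ _
  have hc2 : c ≤ c' * δ ^ 2 / (24 * C) := min_le_right _ _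
  obtain ⟨x₀, hx₀⟩ := Filter.eventually_atTop.mp (ev_t2 δ ε y₀ c hδ hε hc0)
  obtain ⟨N₁, hN₁⟩ := Filter.eventually_atTop.mp (tendsto_logN.eventually_ge_atTop x₀)
  refine ⟨c, hc0, max N₀ N₁, fun N hN H hH1 hH2 M => ?_⟩
  set x : ℝ := Real.log N with hx
  obtain ⟨g0, g1, g2, g3, g4, g5, g6, g7, g8, g9, g10, g11⟩ :=
    hx₀ x (hN₁ N ((le_max_right _ _).trans hN))
  have hx0 : 0 < x := by linarith
  have hHR0 : (0 : ℝ) < H := lt_of_lt_of_le (Real.exp_pos _) hH1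
  set h : ℝ := Real.log H with hh
  have hlogH : x ^ δ ≤ h := by
    rw [hh, ← Real.log_exp (x ^ δ)]
    exact Real.log_le_log (Real.exp_pos _) hH1
  have hh1 : 1 ≤ h := g2.trans hlogH
  have hh0 : 0 < h := by linarith
  have hhx : h ≤ x := Real.log_le_log hHR0 (by exact_mod_cast hH2)
  set ℓ : ℝ := Real.log x with hℓ
  set ℓ₃ : ℝ := Real.log ℓ with hℓ₃
  set ℓ₄ : ℝ := Real.log ℓ₃ with hℓ₄
  have hℓ0 : 0 < ℓ := by linarith
  have hℓ₃0 : 0 < ℓ₃ := by linarith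
  have hℓ₄0 : 0 < ℓ₄ := by linarith
  have hℓ43 : ℓ₄ ≤ ℓ₃ := by
    have := Real.log_le_sub_one_of_pos hℓ₃0
    linarith
  set τ : ℝ := x / h with hτ
  have hτ1 : 1 ≤ τ := by rw [hτ, le_div_iff₀ hh0]; linarith
  have hτ0 : 0 < τ := by linarith
  have hlτ : 0 ≤ Real.log τ := Real.log_nonneg hτ1
  have hτh : τ * h = x := by rw [hτ]; field_simp
  have hD0 : 0 < ℓ₃ * (ℓ₃ + Real.log τ) := by positivity
  set F : ℝ := FF x h with hF
  have hFe : F = x * ℓ ^ 2 * ℓ₄ / (ℓ₃ * (ℓ₃ + Real.log τ)) := rfl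
  have hF0 : 0 < F := by rw [hFe]; positivity
  -- lower bound of F
  have hFlow : 2 * h ≤ c * F := by
    rw [hFe, mul_div_assoc', le_div_iff₀ hD0]
    have e1 : ℓ₃ + Real.log τ ≤ τ * (ℓ₃ + 1) := by
      have := Real.log_le_sub_one_of_pos hτ0
      nlinarith
    calc 2 * h * (ℓ₃ * (ℓ₃ + Real.log τ)) ≤ 2 * h * (ℓ₃ * (τ * (ℓ₃ + 1))) := by gcongr
      _ = (τ * h) * (2 * (ℓ₃ * (ℓ₃ + 1))) := by ring
      _ ≤ (τ * h) * (c * ℓ ^ 2) := by gcongr
      _ = c * (x * ℓ ^ 2 * 1) := by rw [hτh]; ring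
      _ ≤ c * (x * ℓ ^ 2 * ℓ₄) := by
        have : 1 ≤ ℓ₄ := by linarith
        gcongr
  have hFup : c * F ≤ x * ℓ ^ 2 := by
    have e1 : F ≤ x * ℓ ^ 2 := by
      rw [hFe, div_le_iff₀ hD0]
      have e2 : ℓ₄ ≤ ℓ₃ * (ℓ₃ + Real.log τ) := by
        calc ℓ₄ ≤ ℓ₃ * 1 := by linarith
          _ ≤ ℓ₃ * (ℓ₃ + Real.log τ) := by
            apply mul_le_mul_of_nonneg_left _ hℓ₃0.le
            linarith
      exact mul_le_mul_of_nonneg_left e2 (by positivity)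
    calc c * F ≤ 1 * F := mul_le_mul_of_nonneg_right hc1 hF0.le
      _ = F := one_mul F
      _ ≤ _ := e1
  have hFx2 : c * F ≤ x ^ 2 := by
    calc c * F ≤ x * ℓ ^ 2 := hFup
      _ ≤ x * x := by gcongr
      _ = x ^ 2 := by ring
  set U : ℕ := ⌊c * F⌋₊ with hU
  have hUle : (U : ℝ) ≤ c * F := Nat.floor_le (by positivity)
  have hUge : c * F < U + 1 := Nat.lt_floor_add_one _
  set y : ℝ := ε / 12 * h with hy
  have hy0 : 0 < y := by positivity
  have hyy : y₀ ≤ y := by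
    rw [hy]
    calc y₀ ≤ ε / 12 * x ^ δ := g3
      _ ≤ ε / 12 * h := by gcongr
  have hyh : y ≤ h / 12 := by
    rw [hy]
    nlinarith
  have hyU : y * 3 ≤ U := by linarith
  obtain ⟨b, hb⟩ := hrank y hyy U hyU
  -- logarithms of y
  have hly : δ / 2 * ℓ ≤ Real.log y := by
    rw [hy, Real.log_mul (by positivity) hh0.ne']
    have e1 : Real.log (ε / 12) = - Real.log (12 / ε) := by
      rw [← Real.log_inv]
      congr 1
      field_simp
    have e2 : δ * ℓ ≤ Real.log h := by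
      have : Real.log (x ^ δ) = δ * ℓ := Real.log_rpow hx0 _
      rw [← this]
      exact Real.log_le_log (by positivity) hlogH
    rw [e1]
    linarith
  have hδℓ0 : 0 < δ / 2 * ℓ := by positivity
  have hly0 : 0 < Real.log y := by linarith
  have hlyℓ : Real.log y ≤ ℓ := Real.log_le_log hy0 (by linarith)
  have hlly : Real.log (Real.log y) ≤ ℓ₃ := Real.log_le_log hly0 hlyℓ
  have hsq : ℓ ≤ (δ / 2 * ℓ) ^ 2 := by
    rw [div_le_iff₀ (by positivity)] at g8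
    nlinarith
  have hlly2 : ℓ₃ / 2 ≤ Real.log (Real.log y) := by
    have e1 : Real.log ℓ ≤ Real.log ((δ / 2 * ℓ) ^ 2) := Real.log_le_log hℓ0 hsq
    rw [Real.log_pow] at e1
    push_cast at e1
    have e2 : Real.log (δ / 2 * ℓ) ≤ Real.log (Real.log y) := Real.log_le_log hδℓ0 hly
    linarith
  have hllly : ℓ₄ / 2 ≤ Real.log (Real.log (Real.log y)) := by
    have e1 : Real.log (ℓ₃ / 2) ≤ Real.log (Real.log (Real.log y)) :=
      Real.log_le_log (by positivity) hlly2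
    rw [Real.log_div hℓ₃0.ne' (by norm_num)] at e1
    have e2 := Real.log_two_lt_d9
    linarith
  have hlly0 : 0 < Real.log (Real.log y) := by linarith
  have hllly0 : 0 < Real.log (Real.log (Real.log y)) := by linarith
  -- log (U / y)
  have hlUy : Real.log (U / y) ≤ 3 * (ℓ₃ + Real.log τ) := by
    have hU0 : (0:ℝ) < U := by linarith
    have e1 : (U : ℝ) / y ≤ τ * ℓ ^ 2 * (12 / ε) := by
      rw [div_le_iff₀ hy0]
      calc (U : ℝ) ≤ x * ℓ ^ 2 := hUle.trans hFup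
        _ = (τ * h) * ℓ ^ 2 := by rw [hτh]
        _ = τ * ℓ ^ 2 * (12 / ε) * y := by
          rw [hy]
          field_simp
    have e2 := Real.log_le_log (by positivity) e1
    rw [Real.log_mul (by positivity) (by positivity), Real.log_mul hτ0.ne' (by positivity),
      Real.log_pow] at e2
    push_cast at e2
    linarith
  have hlUy0 : 0 ≤ Real.log (U / y) := by
    apply Real.log_nonneg
    rw [le_div_iff₀ hy0]
    linarith
  -- the survivors
  obtain ⟨r, hr⟩ := crt_shift ⌊y⌋₊ b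
  have hcount : (((Icc 1 U).filter (fun s => Nat.Coprime (r + s) (primorial ⌊y⌋₊))).card : ℝ) ≤
      c' * x := by
    have h1 : (((Icc 1 U).filter (fun s => Nat.Coprime (r + s) (primorial ⌊y⌋₊))).card : ℝ) ≤
        (((Finset.Icc 1 U).filter (fun k => ∀ p : ℕ, p.Prime → (p : ℝ) ≤ y →
          ¬ k ≡ b p [MOD p])).card : ℝ) := by
      rw [Nat.cast_le]
      apply Finset.card_le_card
      intro s hs
      rw [mem_filter] at hs ⊢
      exact ⟨hs.1, fun p hp hpy => hr s hs.2 p hp (Nat.le_floor hpy)⟩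
    refine h1.trans (hb.trans ?_)
    calc C * U * (Real.log (U / y) * Real.log (Real.log y)) /
          ((Real.log y) ^ 2 * Real.log (Real.log (Real.log y)))
        ≤ C * (c * F) * ((3 * (ℓ₃ + Real.log τ)) * ℓ₃) / ((δ / 2 * ℓ) ^ 2 * (ℓ₄ / 2)) := by
          gcongr
      _ = 24 * C * c / δ ^ 2 * (F * (ℓ₃ * (ℓ₃ + Real.log τ))) / (ℓ ^ 2 * ℓ₄) := by
          field_simp
          norm_num
      _ = 24 * C * c / δ ^ 2 * x := by
          rw [hFe]
          field_simp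
      _ ≤ c' * x := by
          apply mul_le_mul_of_nonneg_right _ hx0.le
          rw [div_le_iff₀ (by positivity)]
          rw [le_div_iff₀ (by positivity)] at hc2
          linarith
  have hS : ∀ s ∈ Icc 1 U, (s : ℝ) ≤ x ^ 2 := by
    intro s hs
    have : (s : ℝ) ≤ U := by exact_mod_cast (mem_Icc.mp hs).2
    linarith
  refine le_trans ?_ (hmain N ((le_max_left _ _).trans hN) H hH1 hH2 M r (Icc 1 U) hS hcount)
  rw [Nat.cast_le]
  apply Finset.card_le_card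
  intro n hn
  rw [mem_filter] at hn ⊢
  refine ⟨hn.1, ?_⟩
  rintro ⟨m, h1, h2, -, h3⟩
  apply hn.2
  refine ⟨m, h1, ?_, fun k hk1 hk2 => ?_⟩
  · have e1 : (2 : ℝ) * m ≤ 2 * n + H := by exact_mod_cast h2
    linarith
  · have hkU : k - m ≤ U := by
      apply Nat.le_floor
      rw [Nat.cast_sub hk1.le]
      linarith
    obtain ⟨p, hp1, hp2, hp3⟩ := h3 (k - m) (mem_Icc.mpr ⟨by omega, hkU⟩)
    refine ⟨p, hp1, hp2, ?_⟩
    have : m + (k - m) = k := by omega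
    rwa [this] at hp3

end Pool.Agent.J4H30.SW
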