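import Pool.Agent.J4H30.SW.CovW
import Pool.Agent.J4H30.AW.WinA

/-!
Project SW, part 6: one residue class modulo the primorial.  For all but few `n` one of the `J` members of
the residue class `b` following `n` is covered.
-/

set_option autoImplicit false

open Finset Filter

namespace Pool.Agent.J4H30.SW

open Pool.Agent.H410R2.AC Pool.Agent.H410R2.EN Pool.Agent.H143R2.ACF Pool.Agent.J4H30.AW

/-- all the positions are covered -/
def CovP (P S : Finset ℕ) (L z0 b m : ℕ) : Prop :=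
  ∀ a ∈ Bset S L z0 b, ∃ p ∈ P, m % p = rho (primorial z0) b p a

lemma covP_good {P S : Finset ℕ} {L z0 b m : ℕ} (hP : ∀ p ∈ P, p.Prime ∧ z0 < p)
    (hSL : ∀ s ∈ S, s ≤ L) (hm : L ≤ b + primorial z0 * m) (hcov : CovP P S L z0 b m) :
    ∀ s ∈ S, ∃ p : ℕ, p.Prime ∧ (p ≤ z0 ∨ p ∈ P) ∧ p ∣ b + primorial z0 * m - L + s := by
  classical
  intro s hs
  have hsL := hSL s hs
  set W := primorial z0 with hW
  have hcast : ((b + W * m - L + s : ℕ) : ℤ) = (b : ℤ) + W * m - ((L - s : ℕ) : ℤ) := by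
    omega
  by_cases hcop : IsCoprime ((b : ℤ) - ((L - s : ℕ) : ℤ)) (W : ℤ)
  · have haB : L - s ∈ Bset S L z0 b := by
      unfold Bset
      exact mem_filter.mpr ⟨mem_image_of_mem _ hs, hcop⟩
    obtain ⟨p, hp, hmp⟩ := hcov _ haB
    have hpW : ¬ p ∣ W := by
      intro h
      have := prime_dvd_primorial (hP p hp).1 h
      have := (hP p hp).2
      omega
    rw [rho_iff (hP p hp).1 hpW] at hmp
    refine ⟨p, (hP p hp).1, Or.inr hp, ?_⟩
    rw [← Int.natCast_dvd_natCast, hcast]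
    exact hmp
  · have h1 : Int.gcd ((b : ℤ) - ((L - s : ℕ) : ℤ)) (W : ℤ) ≠ 1 := by
      intro h
      exact hcop (Int.isCoprime_iff_gcd_eq_one.mpr h)
    obtain ⟨p, hp, hpd⟩ := Nat.exists_prime_and_dvd h1
    have h2 : (p : ℤ) ∣ (b : ℤ) - ((L - s : ℕ) : ℤ) :=
      (Int.natCast_dvd_natCast.mpr hpd).trans (Int.gcd_dvd_left _ _)
    have h3 : (p : ℤ) ∣ (W : ℤ) := (Int.natCast_dvd_natCast.mpr hpd).trans (Int.gcd_dvd_right _ _)
    have h4 : p ∣ W := Int.natCast_dvd_natCast.mp h3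
    have h5 : p ≤ z0 := prime_dvd_primorial hp h4
    refine ⟨p, hp, Or.inl h5, ?_⟩
    rw [← Int.natCast_dvd_natCast, hcast]
    have h7 : (b : ℤ) + W * m - ((L - s : ℕ) : ℤ) =
        ((b : ℤ) - ((L - s : ℕ) : ℤ)) + W * m := by ring
    rw [h7]
    exact dvd_add h2 (h3.mul_right _)

open Classical in
/-- one residue class -/
theorem one_class (δ A' : ℝ) (hδ0 : 0 < δ) (hA' : 2 ≤ A') : ∃ c : ℝ, 0 < c ∧ ∃ C₁ : ℝ, 1 ≤ C₁ ∧
    ∃ L₀ : ℝ, ∀ L : ℝ, L₀ ≤ L → ∀ m : ℕ, δ * Real.log L ≤ m + 1 →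
      (2:ℝ) ^ m * (C₁ * (Real.log L) ^ 2) ≤ L →
    ∃ PP : Finset ℕ, (∀ p ∈ PP, p.Prime ∧ L ^ A' < (p:ℝ) ∧ (p:ℝ) ≤ Real.exp (L / 1000)) ∧
    ∀ N H Lm z0 M b J : ℕ, ∀ S : Finset ℕ, Real.exp (L / 5) ≤ N → H ≤ N → b < primorial z0 → 0 < J →
      primorial z0 * (J + 1) * 2 ≤ H → Lm * 2 ≤ H → (Lm : ℝ) ≤ L ^ A' → (z0 : ℝ) ≤ L ^ A' →
      ((Bset S Lm z0 (M + b)).card : ℝ) ≤ c * L →
      (((Ioc 0 N).filter (fun n => ¬ ∃ j < J,
        CovP PP S Lm z0 (M + b) (eb Lm (primorial z0) b n + j))).card : ℝ) ≤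
        primorial z0 * (30 * Real.exp (2003 * (Real.log L) ^ 3 * 2 ^ m)) * N / J := by
  obtain ⟨c, hc, C₁, hC₁, L₀, hcore⟩ := cov_wt δ A' hδ0 hA'
  obtain ⟨L₁, hL₁⟩ := Filter.eventually_atTop.mp (Real.tendsto_log_atTop.eventually_ge_atTop (100:ℝ))
  refine ⟨c, hc, C₁, hC₁, max L₀ (max L₁ 1), fun L hL m hm1 hm2 => ?_⟩
  have hLL₀ : L₀ ≤ L := (le_max_left _ _).trans hL
  have hlog : 100 ≤ Real.log L := hL₁ L ((le_max_left _ _).trans ((le_max_right _ _).trans hL))
  have hL1 : 1 ≤ L := (le_max_right _ _).trans ((le_max_right _ _).trans hL)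
  obtain ⟨PP, hPP, hPi, hmain⟩ := hcore L hLL₀ m hm1 hm2
  refine ⟨PP, hPP, fun N H Lm z0 M b J S hN hHN hb hJ hJH hLH hLmA hzA hB => ?_⟩
  set l : ℝ := Real.log L with hl
  have hL0 : 0 < L := by linarith
  have hl0 : 0 < l := by linarith
  have h2m : (1:ℝ) ≤ 2 ^ m := one_le_pow₀ (by norm_num)
  set W : ℕ := primorial z0 with hW
  have hW0 : 0 < W := primorial_pos z0
  have hWR : (0 : ℝ) < W := by exact_mod_cast hW0
  have hJR : (0 : ℝ) < J := by exact_mod_cast hJ
  have hN0 : (0 : ℝ) < N := lt_of_lt_of_le (Real.exp_pos _) hN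
  have hP : ∀ p ∈ PP, p.Prime := fun p hp => (hPP p hp).1
  have hPz : ∀ p ∈ PP, z0 < p := fun p hp => by
    have := (hPP p hp).2.1
    exact_mod_cast hzA.trans_lt this
  have hPL : ∀ p ∈ PP, Lm < p := fun p hp => by
    have := (hPP p hp).2.1
    exact_mod_cast hLmA.trans_lt this
  have hQ : ∀ p ∈ PP, ¬ p ∣ W := fun p hp h => by
    have := prime_dvd_primorial (hP p hp) h
    have := hPz p hp
    omega
  set bad : Finset ℕ := (Ioc 0 N).filter (fun n => ¬ ∃ j < J,
        CovP PP S Lm z0 (M + b) (eb Lm W b n + j)) with hbad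
  -- no positions
  rcases Nat.eq_zero_or_pos (Bset S Lm z0 (M + b)).card with hB0 | hB0
  · have hbad0 : bad = ∅ := by
      rw [hbad, Finset.filter_eq_empty_iff]
      intro n _ hn
      apply hn
      refine ⟨0, hJ, fun a ha => ?_⟩
      rw [Finset.card_eq_zero.mp hB0] at ha
      exact absurd ha (Finset.notMem_empty a)
    rw [hbad0, Finset.card_empty]
    push_cast
    positivity
  by_contra hcon
  push Not at hcon
  set E : Finset ℕ := bad.image (eb Lm W b) with hE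
  have hcard : (bad.card : ℝ) ≤ W * E.card := by
    have h1 := card_fibre bad W (Lm + (W - b)) hW0
    have h2 : E.card = (bad.image (fun n => (n + (Lm + (W - b))) / W)).card := by
      have h3 : E = (bad.image (fun n => (n + (Lm + (W - b))) / W)).image (fun x => x + 1) := by
        rw [hE, Finset.image_image]
        rfl
      rw [h3, Finset.card_image_of_injective _ (add_left_injective 1)]
    rw [h2]
    exact_mod_cast h1
  have hEsub : E ⊆ Icc 1 (4 * N) := by
    intro e he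
    rw [hE, mem_image] at he
    obtain ⟨n, hn, rfl⟩ := he
    rw [hbad, mem_filter, mem_Ioc] at hn
    rw [mem_Icc]
    obtain ⟨h1, h2⟩ := eb_bounds (L := Lm) (n := n) hb
    constructor
    · exact Nat.succ_pos _
    · have h3 : eb Lm W b n ≤ b + W * eb Lm W b n := by
        have := Nat.le_mul_of_pos_left (eb Lm W b n) hW0
        omega
      have h4 : W * (J + 1) * 2 = W * J * 2 + W * 2 := by ring
      omega
  set G : ℝ := Real.exp (1001 * l ^ 3 * 2 ^ m) with hG
  have hG0 : 0 < G := Real.exp_pos _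
  have hEcard : 30 * Real.exp (2003 * l ^ 3 * 2 ^ m) * N / J < E.card := by
    have h1 : W * (30 * Real.exp (2003 * l ^ 3 * 2 ^ m) * N / J) < W * E.card := by
      refine lt_of_lt_of_le (lt_of_eq_of_lt ?_ hcon) hcard
      ring
    exact lt_of_mul_lt_mul_left h1 hWR.le
  have hE0 : (0 : ℝ) < E.card := lt_of_le_of_lt (by positivity) hEcard
  -- the error terms
  have hPi0 : 0 ≤ Pi1 PP := by
    unfold Pi1
    refine Finset.prod_nonneg fun p hp => ?_
    have h2 := prime_two_le (hP p hp)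
    have : (0 : ℝ) < (p : ℝ) - 1 := by linarith
    positivity
  set D0 : ℕ := ⌊Real.exp (L / 10)⌋₊ with hD0
  have hD0' : (D0 : ℝ) ≤ Real.exp (L / 10) := Nat.floor_le (Real.exp_pos _).le
  have hD2 : (D0 : ℝ) ^ 2 ≤ N := by
    refine le_trans ?_ hN
    calc (D0 : ℝ) ^ 2 ≤ (Real.exp (L / 10)) ^ 2 := by gcongr
      _ = Real.exp (L / 5) := by
        rw [← Real.exp_nat_mul]
        congr 1
        push_cast
        ring
  have hET : G * ET 32 PP D0 (errE E J) < E.card := by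
    have h0 : ET 32 PP D0 (errE E J) ≤ E.card / Real.exp (1001 * l ^ 3 * 2 ^ m + 1 / 10 * l ^ 3) := by
      refine (ET_wE E PP (4 * N) J D0 32 hEsub hJ hP).trans ?_
      apply sqrt_bound _ _ _ _ _ hPi0 (by positivity) (by positivity)
      have h1 : 6 * (((4 * N : ℕ) : ℝ) + (D0 : ℝ) ^ 2) * E.card / J ≤ 30 * N / J * E.card := by
        rw [div_le_iff₀ hJR]
        calc 6 * (((4 * N : ℕ) : ℝ) + (D0 : ℝ) ^ 2) * E.card ≤
              6 * (4 * N + N) * E.card := by
                push_cast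
                gcongr
          _ = 30 * N / J * E.card * J := by field_simp; ring
      have h2 : Pi1 PP ^ (2 * 32) * (Pi1 PP ^ (32 ^ 2) *
          (6 * (((4 * N : ℕ) : ℝ) + (D0 : ℝ) ^ 2) * E.card / J)) ≤
          Real.exp (3264 * l) * (30 * N / J * E.card) := by
        calc Pi1 PP ^ (2 * 32) * (Pi1 PP ^ (32 ^ 2) *
            (6 * (((4 * N : ℕ) : ℝ) + (D0 : ℝ) ^ 2) * E.card / J))
            = Pi1 PP ^ 1088 * (6 * (((4 * N : ℕ) : ℝ) + (D0 : ℝ) ^ 2) * E.card / J) := by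
              ring
          _ ≤ (Real.exp (3 * l)) ^ 1088 * (30 * N / J * E.card) := by gcongr
          _ = _ := by
              rw [← Real.exp_nat_mul]
              congr 2
              push_cast
              ring
      refine h2.trans ?_
      rw [div_pow, le_div_iff₀ (by positivity)]
      have h4 : Real.exp (3264 * l) * (30 * N / J * E.card) *
          (Real.exp (1001 * l ^ 3 * 2 ^ m + 1 / 10 * l ^ 3)) ^ 2 =
          (30 * Real.exp (3264 * l + (2002 * l ^ 3 * 2 ^ m + 2 / 10 * l ^ 3)) * N / J) * E.card := by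
        rw [← Real.exp_nat_mul, Real.exp_add (3264 * l)]
        have : ((2 : ℕ) : ℝ) * (1001 * l ^ 3 * 2 ^ m + 1 / 10 * l ^ 3) =
            2002 * l ^ 3 * 2 ^ m + 2 / 10 * l ^ 3 := by push_cast; ring
        rw [this]
        ring
      rw [h4, pow_two (E.card : ℝ)]
      refine mul_le_mul_of_nonneg_right ?_ hE0.le
      refine le_trans ?_ hEcard.le
      have h5 : 3264 * l + (2002 * l ^ 3 * 2 ^ m + 2 / 10 * l ^ 3) ≤ 2003 * l ^ 3 * 2 ^ m := by
        have e3 : 10000 * l ≤ l ^ 3 := by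
          calc 10000 * l = 100 * 100 * l := by ring
            _ ≤ l * l * l := by
              apply mul_le_mul_of_nonneg_right _ hl0.le
              exact mul_le_mul hlog hlog (by norm_num) hl0.le
            _ = l ^ 3 := by ring
        have e4 : l ^ 3 ≤ l ^ 3 * 2 ^ m := le_mul_of_one_le_right (by positivity) h2m
        linarith
      have h6 := Real.exp_le_exp.mpr h5
      gcongr
    have h1 : 1 < Real.exp (1 / 10 * l ^ 3) := Real.one_lt_exp_iff.mpr (by positivity)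
    calc G * ET 32 PP D0 (errE E J) ≤
          G * (E.card / Real.exp (1001 * l ^ 3 * 2 ^ m + 1 / 10 * l ^ 3)) :=
          mul_le_mul_of_nonneg_left h0 hG0.le
      _ = E.card / Real.exp (1 / 10 * l ^ 3) := by
          rw [Real.exp_add, hG]
          field_simp
      _ < E.card := div_lt_self hE0 h1
  -- apply the covering theorem
  have hB' : ∀ a ∈ Bset S Lm z0 (M + b), a ≤ Lm := fun a ha => Bset_le ha
  have hcardκ : Fintype.card (↥(Bset S Lm z0 (M + b))) = (Bset S Lm z0 (M + b)).card :=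
    Fintype.card_coe _
  obtain ⟨a, haM, hwa, hcov⟩ := hmain (↥(Bset S Lm z0 (M + b))) (by rw [hcardκ]; exact hB0)
    (by rw [hcardκ]; exact hB) (fun p a => rho W (M + b) p a.1)
    (fun p hp a => rho_lt (hP p hp))
    (by
      intro p hp x y hxy h
      have h1 := rho_collision (hP p hp) (hQ p hp) h
      have h2 : x.1 ≠ y.1 := fun h3 => hxy (Subtype.ext h3)
      have h3 : 0 < Nat.dist x.1 y.1 := Nat.dist_pos_of_ne h2
      have h4 := Nat.le_of_dvd h3 h1
      have h5 := hB' x.1 x.2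
      have h6 := hB' y.1 y.2
      have h7 := hPL p hp
      have h8 : Nat.dist x.1 y.1 ≤ Lm := by
        unfold Nat.dist
        omega
      omega)
    (wE E J) (4 * N + J) E.card (errE E J) (wE_nonneg E J) hE0
    (equid_wE E PP (4 * N) J (4 * N + J) D0 hEsub hJ le_rfl hP) hET
  obtain ⟨e, he, j, hj, hejm⟩ := wE_ne_zero E J a hwa
  rw [hE, mem_image] at he
  obtain ⟨n, hn, hne⟩ := he
  rw [hbad, mem_filter] at hn
  apply hn.2
  refine ⟨j, hj, fun x hx => ?_⟩
  rw [hne, hejm]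
  obtain ⟨p, hp, hpx⟩ := hcov ⟨x, hx⟩
  exact ⟨p, hp, hpx⟩

end Pool.Agent.J4H30.SW
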